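import Pool.Agent.Lib.MP_08f711_an.CM.Barrier

/-!
The final contradiction, in abstract form.
-/

open Complex Filter Topology Set Metric Asymptotics

namespace Pool.Agent.Lib.MP_08f711_an.CM

theorem small_Fin (M ε : ℝ) (hε : 0 < ε) : ∀ᶠ r in 𝓝[>] (0 : ℝ), M * r < ε := by
  have h : Tendsto (fun r : ℝ => M * r) (𝓝 0) (𝓝 (M * 0)) :=
    (continuous_const.mul continuous_id).tendsto 0
  rw [mul_zero] at h
  exact (h.eventually (gt_mem_nhds hε)).filter_mono nhdsWithin_le_nhds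

theorem norm_xI_Fin (x : ℝ) : ‖(x : ℂ) * I‖ = |x| := by
  rw [norm_mul, norm_I, mul_one, norm_real, Real.norm_eq_abs]

theorem norm_x_Fin (x : ℝ) : ‖(x : ℂ)‖ = |x| := by
  rw [norm_real, Real.norm_eq_abs]

/-- The even part on the imaginary axis. -/
theorem psi2_Fin {s : ℂ → ℂ} {a1 a4 a7 : ℂ} {C K y q x : ℝ} (hx : 0 < x)
    (hxy : K * x ^ 10 < y)
    (h : ∀ ζ : ℂ, K * ‖ζ‖ ^ 10 < y →
      ‖s ζ - (a1 * ζ + a4 * ζ ^ 4 + a7 * ζ ^ 7)‖ ≤ C * ‖ζ‖ ^ 10 / q) :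
    ‖s ((x : ℂ) * I) + s (((-x : ℝ) : ℂ) * I) - 2 * a4 * (x : ℂ) ^ 4‖ ≤ 2 * C * x ^ 10 / q := by
  have n1 : ‖(x : ℂ) * I‖ = x := by rw [norm_xI_Fin, abs_of_pos hx]
  have n2 : ‖((-x : ℝ) : ℂ) * I‖ = x := by rw [norm_xI_Fin, abs_neg, abs_of_pos hx]
  have h1 := h ((x : ℂ) * I) (by rw [n1]; exact hxy)
  have h2 := h (((-x : ℝ) : ℂ) * I) (by rw [n2]; exact hxy)
  rw [n1] at h1
  rw [n2] at h2
  have e : s ((x : ℂ) * I) + s (((-x : ℝ) : ℂ) * I) - 2 * a4 * (x : ℂ) ^ 4 =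
      (s ((x : ℂ) * I) - (a1 * ((x : ℂ) * I) + a4 * ((x : ℂ) * I) ^ 4 + a7 * ((x : ℂ) * I) ^ 7)) +
      (s (((-x : ℝ) : ℂ) * I) - (a1 * (((-x : ℝ) : ℂ) * I) + a4 * (((-x : ℝ) : ℂ) * I) ^ 4 +
        a7 * (((-x : ℝ) : ℂ) * I) ^ 7)) := by
    generalize s ((x : ℂ) * I) = s1
    generalize s (((-x : ℝ) : ℂ) * I) = s2
    push_cast
    linear_combination (2 * a4 * (x : ℂ) ^ 4) * I_pow_four
  rw [e]
  refine (norm_add_le _ _).trans ?_
  have : 2 * C * x ^ 10 / q = C * x ^ 10 / q + C * x ^ 10 / q := by ring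
  rw [this]
  exact add_le_add h1 h2

/-- The combination on the real axis. -/
theorem psi1_Fin {s : ℂ → ℂ} {a1 a4 a7 : ℂ} {C K y q r : ℝ} (hr : 0 < r) (hK : 0 < K)
    (hry : K * (3 * r) ^ 10 < y)
    (h : ∀ ζ : ℂ, K * ‖ζ‖ ^ 10 < y →
      ‖s ζ - (a1 * ζ + a4 * ζ ^ 4 + a7 * ζ ^ 7)‖ ≤ C * ‖ζ‖ ^ 10 / q) :
    ‖95 * s (r : ℂ) + 52 * s ((-2 * r : ℝ) : ℂ) + 3 * s ((3 * r : ℝ) : ℂ) -
      1170 * a4 * (r : ℂ) ^ 4‖ ≤ 230490 * C * r ^ 10 / q := by
  have n1 : ‖(r : ℂ)‖ = r := by rw [norm_x_Fin, abs_of_pos hr]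
  have n2 : ‖((-2 * r : ℝ) : ℂ)‖ = 2 * r := by
    rw [norm_x_Fin, abs_of_neg (by linarith)]; ring
  have n3 : ‖((3 * r : ℝ) : ℂ)‖ = 3 * r := by rw [norm_x_Fin, abs_of_pos (by linarith)]
  have k1 : K * r ^ 10 ≤ K * (3 * r) ^ 10 := by gcongr; linarith
  have k2 : K * (2 * r) ^ 10 ≤ K * (3 * r) ^ 10 := by gcongr; linarith
  have h1 := h (r : ℂ) (by rw [n1]; linarith)
  have h2 := h ((-2 * r : ℝ) : ℂ) (by rw [n2]; linarith)
  have h3 := h ((3 * r : ℝ) : ℂ) (by rw [n3]; exact hry)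
  rw [n1] at h1
  rw [n2] at h2
  rw [n3] at h3
  have e : 95 * s (r : ℂ) + 52 * s ((-2 * r : ℝ) : ℂ) + 3 * s ((3 * r : ℝ) : ℂ) -
      1170 * a4 * (r : ℂ) ^ 4 =
      95 * (s (r : ℂ) - (a1 * (r : ℂ) + a4 * (r : ℂ) ^ 4 + a7 * (r : ℂ) ^ 7)) +
      52 * (s ((-2 * r : ℝ) : ℂ) - (a1 * ((-2 * r : ℝ) : ℂ) + a4 * ((-2 * r : ℝ) : ℂ) ^ 4 +
        a7 * ((-2 * r : ℝ) : ℂ) ^ 7)) +
      3 * (s ((3 * r : ℝ) : ℂ) - (a1 * ((3 * r : ℝ) : ℂ) + a4 * ((3 * r : ℝ) : ℂ) ^ 4 +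
        a7 * ((3 * r : ℝ) : ℂ) ^ 7)) := by
    generalize s (r : ℂ) = s1
    generalize s ((-2 * r : ℝ) : ℂ) = s2
    generalize s ((3 * r : ℝ) : ℂ) = s3
    push_cast
    ring
  rw [e]
  refine (norm_add₃_le).trans ?_
  rw [norm_mul, norm_mul, norm_mul]
  have c1 : ‖(95 : ℂ)‖ = 95 := by simp
  have c2 : ‖(52 : ℂ)‖ = 52 := by simp
  have c3 : ‖(3 : ℂ)‖ = 3 := by simp
  rw [c1, c2, c3]
  have : 230490 * C * r ^ 10 / q =
      95 * (C * r ^ 10 / q) + 52 * (C * (2 * r) ^ 10 / q) + 3 * (C * (3 * r) ^ 10 / q) := by ring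
  rw [this]
  linarith

theorem fin_false {S : ℂ → ℂ → ℂ} {X C K r0 : ℝ} (hX : 0 < X) (hC : 0 < C) (hK : 0 < K)
    (hr0 : 0 < r0)
    (hA : ∀ ζ u : ℂ, K * ‖ζ‖ ^ 10 < -u.re → -u.re ≤ X → |u.im| ≤ 2 * X → AnalyticAt ℂ (S ζ) u)
    (hT : ∀ u : ℂ, 0 < -u.re → -u.re ≤ X → |u.im| ≤ 2 * X → ∃ a1 a4 a7 : ℂ,
      ‖a4‖ ≤ C / u.re ^ 2 ∧ ∀ ζ : ℂ, K * ‖ζ‖ ^ 10 < -u.re →
        ‖S ζ u - (a1 * ζ + a4 * ζ ^ 4 + a7 * ζ ^ 7)‖ ≤ C * ‖ζ‖ ^ 10 / u.re ^ 2)
    (hre : ∀ (x : ℝ) (u : ℂ), x ≠ 0 → |x| ≤ r0 → K * |x| ^ 10 < -u.re → -u.re ≤ X / 2 →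
      |u.im| ≤ 2 * X → -(S x u).re ≤ 6 * (-32 * x ^ 9 + 7 * x ^ 10) + C * (-u.re))
    (him : ∀ (x : ℝ) (u : ℂ), x ≠ 0 → |x| ≤ r0 → K * |x| ^ 10 < -u.re → -u.re ≤ X / 2 →
      |u.im| ≤ 2 * X → (S (x * I) u).re ≤ C * x ^ 8 + C * (-u.re)) : False := by
  obtain ⟨B, hB⟩ : ∃ B : ℝ, B = K * 4 ^ 10 := ⟨_, rfl⟩
  have hBpos : 0 < B := by rw [hB]; positivity
  obtain ⟨E2, hE2⟩ : ∃ E2 : ℝ, E2 = 2 * C + 2048 * C * K + 32 * C * B / X ^ 3 := ⟨_, rfl⟩
  obtain ⟨E, hE⟩ : ∃ E : ℝ, E = 42 * 230490 + 150 * C * B + 585 * E2 := ⟨_, rfl⟩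
  obtain ⟨D, hD⟩ : ∃ D : ℝ, D = 231660 * C := ⟨_, rfl⟩
  have hDpos : 0 < D := by rw [hD]; positivity
  obtain ⟨r, ⟨⟨⟨⟨⟨hr1, hr3⟩, hrB⟩, hrE⟩, hrD⟩, hr⟩⟩ :=
    ((((((small_Fin 1 1 one_pos).and (small_Fin 3 r0 hr0)).and
      (small_Fin B (X / 16) (by positivity))).and (small_Fin E 1 one_pos)).and
      (small_Fin (513 * D) (X ^ 2) (by positivity))).and self_mem_nhdsWithin).exists
  have hr : 0 < r := hr
  have hr1 : r ≤ 1 := by linarith
  have pw : ∀ m n : ℕ, n ≤ m → r ^ m ≤ r ^ n := fun m n h => pow_le_pow_of_le_one hr.le hr1 h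
  have hx : 0 < r ^ 2 := by positivity
  have hxr : r ^ 2 ≤ r := by simpa using pw 2 1 (by norm_num)
  -- the two lines
  obtain ⟨δ, hδ⟩ : ∃ δ : ℝ, δ = 1024 * K * r ^ 20 := ⟨_, rfl⟩
  obtain ⟨y1, hy1⟩ : ∃ y1 : ℝ, y1 = B * r ^ 10 := ⟨_, rfl⟩
  have hδpos : 0 < δ := by rw [hδ]; positivity
  have hy1pos : 0 < y1 := by rw [hy1]; positivity
  have hKr20 : 0 < K * r ^ 20 := by positivity
  have hKr10 : 0 < K * r ^ 10 := by positivity
  have hKle : K * r ^ 20 ≤ K * r ^ 10 := mul_le_mul_of_nonneg_left (pw 20 10 (by norm_num)) hK.le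
  have hδy : δ ≤ y1 := by rw [hδ, hy1, hB]; nlinarith
  have hy1X : y1 ≤ X / 16 := by
    have : B * r ^ 10 ≤ B * r := by
      refine mul_le_mul_of_nonneg_left ?_ hBpos.le
      simpa using pw 10 1 (by norm_num)
    rw [hy1]; linarith
  have hxδ : K * (r ^ 2) ^ 10 < δ := by rw [hδ]; nlinarith
  have h3y : K * (3 * r) ^ 10 < y1 := by rw [hy1, hB]; nlinarith
  -- the even part
  obtain ⟨P2, hP2⟩ : ∃ P2 : ℂ → ℂ, P2 = fun u =>
      S (((r ^ 2 : ℝ) : ℂ) * I) u + S (((-(r ^ 2) : ℝ) : ℂ) * I) u := ⟨_, rfl⟩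
  have ax : |r ^ 2| = r ^ 2 := abs_of_pos hx
  have anx : |-(r ^ 2)| = r ^ 2 := by rw [abs_neg, ax]
  have hP2A : ∀ u : ℂ, δ ≤ -u.re → -u.re ≤ X → |u.im| ≤ 2 * X → AnalyticAt ℂ P2 u := by
    intro u h1 h2 h3
    rw [hP2]
    refine (hA _ u ?_ h2 h3).add (hA _ u ?_ h2 h3)
    · rw [norm_xI_Fin, ax]; linarith
    · rw [norm_xI_Fin, anx]; linarith
  have hP2line : ∀ s : ℝ, |s| ≤ X → (P2 (-(y1 : ℂ) + s * I)).re ≤ E2 * r ^ 14 := by
    intro s hs
    have re1 : ∀ u : ℂ, (u + s * I).re = u.re := by intro u; simp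
    have im1 : ∀ u : ℂ, u ∈ Tri δ X → |(u + s * I).im| ≤ 2 * X := by
      intro u hu
      have e : (u + s * I).im = u.im + s := by simp
      rw [e]
      have := abs_add_le u.im s
      have h1 := hu.1
      have h2 := hu.2
      linarith
    have reX : ∀ u : ℂ, u ∈ Tri δ X → -u.re ≤ X := by
      intro u hu
      have := abs_nonneg u.im
      have h2 := hu.2
      linarith
    have key := barrier_re (Ψ := fun u => P2 (u + s * I)) (δ := δ) (X := X)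
      (A := 2 * C * r ^ 16 + 2 * C * δ) (D := 4 * C * r ^ 8) (y := y1) hδpos (by positivity)
      (by
        intro u hu
        have h0 : AnalyticAt ℂ (fun u : ℂ => u + s * I) u := analyticAt_id.add analyticAt_const
        exact AnalyticAt.comp (g := P2) (f := fun u : ℂ => u + s * I)
          (hP2A _ (by rw [re1]; exact hu.1) (by rw [re1]; exact reX u hu) (im1 u hu)) h0)
      (by
        intro u hu hl
        have h1 := him (r ^ 2) (u + s * I) hx.ne' (by rw [ax]; linarith)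
          (by rw [ax, re1]; linarith) (by rw [re1]; linarith) (im1 u hu)
        have h2 := him (-(r ^ 2)) (u + s * I) (neg_ne_zero.mpr hx.ne') (by rw [anx]; linarith)
          (by rw [anx, re1]; linarith) (by rw [re1]; linarith) (im1 u hu)
        rw [re1, hl] at h1 h2
        simp only [hP2, add_re]
        have e1 : (r ^ 2) ^ 8 = r ^ 16 := by ring
        have e2 : (-(r ^ 2)) ^ 8 = r ^ 16 := by ring
        rw [e1] at h1
        rw [e2] at h2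
        linarith)
      (by
        intro u hu
        have hu1 := hu.1
        obtain ⟨a1, a4, a7, h4, hz⟩ := hT (u + s * I) (by rw [re1]; linarith)
          (by rw [re1]; exact reX u hu) (im1 u hu)
        rw [re1] at h4 hz
        have hb := psi2_Fin (s := fun ζ => S ζ (u + s * I)) hx (by linarith) hz
        have hq : 0 < u.re ^ 2 := by
          have : u.re ≠ 0 := by intro h; rw [h] at hu1; linarith
          positivity
        have h5 : ‖2 * a4 * ((r ^ 2 : ℝ) : ℂ) ^ 4‖ ≤ 2 * C * r ^ 8 / u.re ^ 2 := by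
          rw [norm_mul, norm_mul, norm_pow, norm_x_Fin, ax]
          have c2 : ‖(2 : ℂ)‖ = 2 := by simp
          rw [c2]
          have e : 2 * C * r ^ 8 / u.re ^ 2 = 2 * (C / u.re ^ 2) * (r ^ 2) ^ 4 := by ring
          rw [e]
          gcongr
        have h6 : 2 * C * (r ^ 2) ^ 10 / u.re ^ 2 ≤ 2 * C * r ^ 8 / u.re ^ 2 := by
          have e : (r ^ 2) ^ 10 = r ^ 20 := by ring
          rw [e]
          have := pw 20 8 (by norm_num)
          gcongr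
        have h7 : ‖P2 (u + s * I)‖ ≤ 4 * C * r ^ 8 / u.re ^ 2 := by
          have e : P2 (u + s * I) = (P2 (u + s * I) - 2 * a4 * ((r ^ 2 : ℝ) : ℂ) ^ 4) +
              2 * a4 * ((r ^ 2 : ℝ) : ℂ) ^ 4 := by ring
          have e4 : 4 * C * r ^ 8 / u.re ^ 2 =
              2 * C * r ^ 8 / u.re ^ 2 + 2 * C * r ^ 8 / u.re ^ 2 := by ring
          rw [e, e4]
          refine (norm_add_le _ _).trans (add_le_add ?_ h5)
          rw [hP2]
          exact hb.trans h6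
        have h8 := (re_le_norm (P2 (u + s * I))).trans h7
        have h9 : 0 ≤ 2 * C * r ^ 16 + 2 * C * δ := by positivity
        linarith)
      hδy (by linarith)
    refine key.trans ?_
    have p16 := pw 16 14 (by norm_num)
    have p20 := pw 20 14 (by norm_num)
    have p18 := pw 18 14 (by norm_num)
    have t1 : 2 * C * r ^ 16 ≤ 2 * C * r ^ 14 := by gcongr
    have t2 : 2048 * C * K * r ^ 20 ≤ 2048 * C * K * r ^ 14 := by gcongr
    have t3 : 32 * C * B / X ^ 3 * r ^ 18 ≤ 32 * C * B / X ^ 3 * r ^ 14 := by gcongr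
    have e1 : 2 * C * δ = 2048 * C * K * r ^ 20 := by rw [hδ]; ring
    have e2 : 8 * (4 * C * r ^ 8) * y1 / X ^ 3 = 32 * C * B / X ^ 3 * r ^ 18 := by
      rw [hy1]; ring
    have e3 : E2 * r ^ 14 = 2 * C * r ^ 14 + 2048 * C * K * r ^ 14 +
        32 * C * B / X ^ 3 * r ^ 14 := by rw [hE2]; ring
    rw [e1, e2, e3]
    linarith
  -- the full combination
  obtain ⟨Ψ, hΨ⟩ : ∃ Ψ : ℂ → ℂ, Ψ = fun u => 585 * P2 u - ((r ^ 4 : ℝ) : ℂ) *
      (95 * S (r : ℂ) u + 52 * S ((-2 * r : ℝ) : ℂ) u + 3 * S ((3 * r : ℝ) : ℂ) u) := ⟨_, rfl⟩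
  have a1r : |r| = r := abs_of_pos hr
  have a2r : |-2 * r| = 2 * r := by rw [abs_of_neg (by linarith)]; ring
  have a3r : |3 * r| = 3 * r := abs_of_pos (by linarith)
  have k1 : K * r ^ 10 ≤ K * (3 * r) ^ 10 := by gcongr; linarith
  have k2 : K * (2 * r) ^ 10 ≤ K * (3 * r) ^ 10 := by gcongr; linarith
  have reX : ∀ u : ℂ, u ∈ Tri y1 X → -u.re ≤ X := by
    intro u hu
    have := abs_nonneg u.im
    have h2 := hu.2
    linarith
  have imX : ∀ u : ℂ, u ∈ Tri y1 X → |u.im| ≤ X := by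
    intro u hu
    have h1 := hu.1
    have h2 := hu.2
    linarith
  have hΨn : ∀ u ∈ Tri y1 X, ‖Ψ u‖ ≤ D * r ^ 14 / u.re ^ 2 := by
    intro u hu
    have hu1 := hu.1
    have hi := imX u hu
    obtain ⟨a1, a4, a7, -, hz⟩ := hT u (by linarith) (reX u hu) (by linarith)
    have hb2 := psi2_Fin (s := fun ζ => S ζ u) hx (by linarith) hz
    have hb1 := psi1_Fin (s := fun ζ => S ζ u) hr hK (by linarith) hz
    have hq : 0 < u.re ^ 2 := by
      have : u.re ≠ 0 := by intro h; rw [h] at hu1; linarith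
      positivity
    have e : Ψ u = 585 * (P2 u - 2 * a4 * ((r ^ 2 : ℝ) : ℂ) ^ 4) - ((r ^ 4 : ℝ) : ℂ) *
        (95 * S (r : ℂ) u + 52 * S ((-2 * r : ℝ) : ℂ) u + 3 * S ((3 * r : ℝ) : ℂ) u -
          1170 * a4 * (r : ℂ) ^ 4) := by
      simp only [hΨ]
      generalize S (r : ℂ) u = s1
      generalize S ((-2 * r : ℝ) : ℂ) u = s2
      generalize S ((3 * r : ℝ) : ℂ) u = s3
      push_cast
      ring
    have hb2'' : ‖P2 u - 2 * a4 * ((r ^ 2 : ℝ) : ℂ) ^ 4‖ ≤ 2 * C * r ^ 14 / u.re ^ 2 := by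
      rw [hP2]
      refine hb2.trans ?_
      have e : (r ^ 2) ^ 10 = r ^ 20 := by ring
      rw [e]
      have := pw 20 14 (by norm_num)
      gcongr
    rw [e]
    refine (norm_sub_le _ _).trans ?_
    rw [norm_mul, norm_mul, norm_x_Fin, abs_of_pos (by positivity : 0 < r ^ 4)]
    have c1 : ‖(585 : ℂ)‖ = 585 := by simp
    rw [c1]
    have t := mul_le_mul_of_nonneg_left hb1 (by positivity : 0 ≤ r ^ 4)
    have e5 : D * r ^ 14 / u.re ^ 2 =
        585 * (2 * C * r ^ 14 / u.re ^ 2) + r ^ 4 * (230490 * C * r ^ 10 / u.re ^ 2) := by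
      rw [hD]; ring
    rw [e5]
    linarith
  have key := barrier_re (Ψ := Ψ) (δ := y1) (X := X) (A := -(2 * r ^ 13))
    (D := D * r ^ 14 + 2 * r ^ 13 * X ^ 2) (y := X / 16) hy1pos (by positivity)
    (by
      intro u hu
      have hu1 := hu.1
      have hi := imX u hu
      have hi2 : |u.im| ≤ 2 * X := by linarith
      rw [hΨ]
      refine (analyticAt_const.mul (hP2A u (by linarith) (reX u hu) hi2)).sub
        (analyticAt_const.mul (((analyticAt_const.mul (hA _ u ?_ (reX u hu) hi2)).add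
          (analyticAt_const.mul (hA _ u ?_ (reX u hu) hi2))).add
          (analyticAt_const.mul (hA _ u ?_ (reX u hu) hi2))))
      · rw [norm_x_Fin, a1r]; linarith
      · rw [norm_x_Fin, a2r]; linarith
      · rw [norm_x_Fin, a3r]; linarith)
    (by
      intro u hu hl
      have hi := imX u hu
      have hi2 : |u.im| ≤ 2 * X := by linarith
      have h1 := hre r u hr.ne' (by rw [a1r]; linarith) (by rw [a1r]; linarith) (by linarith) hi2
      have h2 := hre (-2 * r) u (by linarith) (by rw [a2r]; linarith) (by rw [a2r]; linarith)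
        (by linarith) hi2
      have h3 := hre (3 * r) u (by linarith) (by rw [a3r]; linarith) (by rw [a3r]; linarith)
        (by linarith) hi2
      have h4 := hP2line u.im hi
      have eu : -(y1 : ℂ) + u.im * I = u := by
        apply Complex.ext
        · simp [← hl]
        · simp
      rw [eu] at h4
      rw [hl, hy1] at h1 h2 h3
      have e : (Ψ u).re = 585 * (P2 u).re + r ^ 4 * (95 * (-(S (r : ℂ) u).re) +
          52 * (-(S ((-2 * r : ℝ) : ℂ) u).re) + 3 * (-(S ((3 * r : ℝ) : ℂ) u).re)) := by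
        simp only [hΨ]
        generalize S (r : ℂ) u = s1
        generalize S ((-2 * r : ℝ) : ℂ) u = s2
        generalize S ((3 * r : ℝ) : ℂ) u = s3
        generalize r ^ 4 = t
        simp
        ring
      have h5 : 95 * (-(S (r : ℂ) u).re) + 52 * (-(S ((-2 * r : ℝ) : ℂ) u).re) +
          3 * (-(S ((3 * r : ℝ) : ℂ) u).re) ≤
          -6243840 * r ^ 9 + (42 * 230490 + 150 * C * B) * r ^ 10 := by
        have e' : -6243840 * r ^ 9 + (42 * 230490 + 150 * C * B) * r ^ 10 =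
            95 * (6 * (-32 * r ^ 9 + 7 * r ^ 10) + C * (B * r ^ 10)) +
            52 * (6 * (-32 * (-2 * r) ^ 9 + 7 * (-2 * r) ^ 10) + C * (B * r ^ 10)) +
            3 * (6 * (-32 * (3 * r) ^ 9 + 7 * (3 * r) ^ 10) + C * (B * r ^ 10)) := by ring
        rw [e']
        linarith
      have h6 := mul_le_mul_of_nonneg_left h5 (by positivity : 0 ≤ r ^ 4)
      have h13 : 0 < r ^ 13 := by positivity
      have h7 : E * r * r ^ 13 ≤ 1 * r ^ 13 := mul_le_mul_of_nonneg_right hrE.le h13.le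
      have e8 : r ^ 4 * (-6243840 * r ^ 9 + (42 * 230490 + 150 * C * B) * r ^ 10) +
          585 * (E2 * r ^ 14) = -6243840 * r ^ 13 + E * r * r ^ 13 := by rw [hE]; ring
      rw [e]
      linarith)
    (by
      intro u hu
      have hu1 := hu.1
      have hq : 0 < u.re ^ 2 := by
        have : u.re ≠ 0 := by intro h; rw [h] at hu1; linarith
        positivity
      have h8 := (re_le_norm (Ψ u)).trans (hΨn u hu)
      have hX2 : u.re ^ 2 ≤ X ^ 2 := by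
        have := reX u hu
        nlinarith
      have h9 : 2 * r ^ 13 ≤ 2 * r ^ 13 * X ^ 2 / u.re ^ 2 := by
        rw [le_div_iff₀ hq]
        gcongr
      rw [add_div]
      linarith)
    hy1X (by linarith)
  have hm : (-((X / 16 : ℝ) : ℂ)) ∈ Tri y1 X := by
    constructor
    · simp only [neg_re, ofReal_re, neg_neg]; exact hy1X
    · simp only [neg_re, ofReal_re, neg_neg, neg_im, ofReal_im, neg_zero, abs_zero]; linarith
  have hlow := hΨn _ hm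
  have hre' : (-((X / 16 : ℝ) : ℂ)).re = -(X / 16) := by simp only [neg_re, ofReal_re]
  rw [hre'] at hlow
  have hl2 : -(Ψ (-((X / 16 : ℝ) : ℂ))).re ≤ ‖Ψ (-((X / 16 : ℝ) : ℂ))‖ :=
    (neg_le_abs _).trans (abs_re_le_norm _)
  have e1 : D * r ^ 14 / (-(X / 16)) ^ 2 = 256 * (D * r * r ^ 13 / X ^ 2) := by
    field_simp
    ring
  have e2 : 8 * (D * r ^ 14 + 2 * r ^ 13 * X ^ 2) * (X / 16) / X ^ 3 =
      (D * r * r ^ 13 / X ^ 2) / 2 + r ^ 13 := by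
    field_simp
    ring
  rw [e1] at hlow
  rw [e2] at key
  have h13 : 0 < r ^ 13 := by positivity
  have h10 : 513 * (D * r * r ^ 13 / X ^ 2) < r ^ 13 := by
    have e3 : 513 * (D * r * r ^ 13 / X ^ 2) = 513 * D * r * r ^ 13 / X ^ 2 := by ring
    rw [e3, div_lt_iff₀ (by positivity)]
    nlinarith
  have h11 : 0 ≤ D * r * r ^ 13 / X ^ 2 := by positivity
  linarith

end Pool.Agent.Lib.MP_08f711_an.CM
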