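import Pool.Agent.Lib.MP_08f711_an.CM.Ineq
import Pool.Agent.Lib.MP_08f711_an.CM.Fin

/-!
There is no midpoint map.
-/

open Complex Filter Topology Set Metric Asymptotics

namespace Pool.Agent.Lib.MP_08f711_an.CM

theorem exists_cube_root : ∃ c : ℂ, c ^ 2 + c + 1 = 0 ∧ c ^ 3 = 1 ∧ ‖c‖ = 1 := by
  obtain ⟨s, hs⟩ := IsAlgClosed.exists_pow_nat_eq (-3 : ℂ) two_pos
  have h1 : ((-1 + s) / 2) ^ 2 + (-1 + s) / 2 + 1 = 0 := by linear_combination (1 / 4) * hs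
  have h2 : ((-1 + s) / 2) ^ 3 = 1 := by linear_combination ((-1 + s) / 2 - 1) * h1
  refine ⟨_, h1, h2, ?_⟩
  have := congrArg norm h2
  rw [norm_pow, norm_one] at this
  exact (pow_eq_one_iff_of_nonneg (norm_nonneg _) (by norm_num)).1 this

theorem sum_rot {c : ℂ} (hc : c ^ 2 + c + 1 = 0) (a : ℕ → ℂ) (ζ : ℂ) :
    ∑ j ∈ Finset.range (9 + 1), a j * ζ ^ j + c ^ 2 * ∑ j ∈ Finset.range (9 + 1), a j * (c * ζ) ^ j +
      c ^ 4 * ∑ j ∈ Finset.range (9 + 1), a j * (c * (c * ζ)) ^ j =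
      3 * (a 1 * ζ + a 4 * ζ ^ 4 + a 7 * ζ ^ 7) := by
  have h3 : c ^ 3 = 1 := by linear_combination (c - 1) * hc
  have hp : ∀ n, c ^ (n + 3) = c ^ n := fun n => by rw [pow_add, h3, mul_one]
  have e : ∀ j, a j * ζ ^ j + c ^ 2 * (a j * (c * ζ) ^ j) + c ^ 4 * (a j * (c * (c * ζ)) ^ j) =
      a j * ζ ^ j * (1 + c ^ (j + 2) + c ^ (2 * j + 4)) := fun j => by ring
  rw [Finset.mul_sum, Finset.mul_sum, ← Finset.sum_add_distrib, ← Finset.sum_add_distrib]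
  simp only [e, Finset.sum_range_succ, Finset.sum_range_zero]
  norm_num only [hp]
  linear_combination (a 0 + a 2 * ζ ^ 2 + a 3 * ζ ^ 3 + a 5 * ζ ^ 5 + a 6 * ζ ^ 6 + a 8 * ζ ^ 8 +
    a 9 * ζ ^ 9) * hc

theorem exists_rho {R y : ℝ} (hR : 0 < R) (hR4 : R ≤ 1 / 4) (hy : 0 < y) (hy1 : y ≤ 1) :
    ∃ ρ : ℝ, 0 < ρ ∧ ρ ≤ R ∧ 164 * (2 * ρ) ^ 10 ≤ y ∧ 2 ^ 28 / R ^ 10 * (ρ / 2) ^ 10 = y := by
  have hp : 0 < y * R ^ 10 / 2 ^ 18 := by positivity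
  obtain ⟨ρ, hρ, e⟩ : ∃ ρ : ℝ, 0 < ρ ∧ ρ ^ 10 = y * R ^ 10 / 2 ^ 18 :=
    ⟨_, Real.rpow_pos_of_pos hp _, Real.rpow_inv_natCast_pow hp.le (by norm_num)⟩
  have hR10 : 0 < R ^ 10 := by positivity
  have hR1 : R ^ 10 ≤ 1 := pow_le_one₀ hR.le (by linarith)
  refine ⟨ρ, hρ, ?_, ?_, ?_⟩
  · refine le_of_pow_le_pow_left₀ (n := 10) (by norm_num) hR.le ?_
    rw [e]
    nlinarith
  · rw [mul_pow, e]
    nlinarith
  · rw [div_pow, e]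
    field_simp

theorem mem_Vset {R ρ : ℝ} (hR4 : R ≤ 1 / 4) {ζ u s : ℂ} (hζ : ‖ζ‖ < ρ) (hs : ‖s‖ < ρ)
    (hρ : ρ ≤ R) (hy : 164 * (2 * ρ) ^ 10 ≤ -u.re) (hy1 : -u.re ≤ R / 8)
    (him : |u.im| ≤ 2 * (R / 8)) : (ζ, u, s) ∈ Vset R := by
  have hρ0 : 0 < ρ := (norm_nonneg _).trans_lt hζ
  have hy0 : 0 < -u.re := lt_of_lt_of_le (by positivity) hy
  have e1 := exp_neg_two_le hy0.le (by linarith)
  have key : ∀ s' : ℂ, ‖s'‖ < ρ → Real.exp (2 * u.re) + 4 * Qc (ζ + s') < 1 := by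
    intro s' hs'
    have a1 : ‖ζ + s'‖ < 2 * ρ := (norm_add_le _ _).trans_lt (by linarith)
    have a2 := Qc_upper (z := ζ + s') (by linarith)
    have a3 : ‖ζ + s'‖ ^ 10 < (2 * ρ) ^ 10 := by gcongr
    have a4 : 2 * u.re = -(2 * -u.re) := by ring
    rw [a4]
    linarith
  refine ⟨norm_triple_lt (by linarith) ?_ (by linarith), key s hs, ?_⟩
  · refine (norm_le_abs_re_add_abs_im _).trans_lt ?_
    rw [abs_of_neg (by linarith)]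
    linarith
  · have := key (-s) (by rwa [norm_neg])
    rwa [← sub_eq_add_neg] at this

theorem norm_three_le {c a0 a1 a2 : ℂ} (hc : ‖c‖ = 1) (i j : ℕ) {B : ℝ} (h0 : ‖a0‖ ≤ B)
    (h1 : ‖a1‖ ≤ B) (h2 : ‖a2‖ ≤ B) : ‖a0 + c ^ i * a1 + c ^ j * a2‖ ≤ 3 * B := by
  refine (norm_add₃_le).trans ?_
  simp only [norm_mul, norm_pow, hc, one_pow, one_mul]
  linarith

theorem taylor_sym {c E : ℂ} (hc : c ^ 2 + c + 1 = 0) (hc1 : ‖c‖ = 1) (hE : ‖E‖ ≤ 2) {ρ : ℝ}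
    (hρ : 0 < ρ) (hρ1 : ρ ≤ 1) {g : ℂ → ℂ × ℂ} (hg : DifferentiableOn ℂ g (ball 0 ρ))
    (hM : ∀ t ∈ ball (0 : ℂ) ρ, ‖g t‖ ≤ 4 / ρ ^ 2) :
    ∃ a1 a4 a7 : ℂ, ‖a4‖ ≤ 400000 / ρ ^ 20 ∧ ∀ ζ p : ℂ, ‖ζ‖ < ρ / 2 → ‖p‖ ≤ 416 * ‖ζ‖ ^ 9 →
      ‖((1 - 4 * Qc ζ) * (g ζ).2 * E + 2 * p * (g ζ).1) +
        c ^ 2 * ((1 - 4 * Qc ζ) * (g (c * ζ)).2 * E + 2 * (p * c ^ 2) * (g (c * ζ)).1) +
        c ^ 4 * ((1 - 4 * Qc ζ) * (g (c * (c * ζ))).2 * E +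
          2 * (p * c ^ 2 * c ^ 2) * (g (c * (c * ζ))).1) -
        (a1 * ζ + a4 * ζ ^ 4 + a7 * ζ ^ 7)‖ ≤ 400000 / ρ ^ 20 * ‖ζ‖ ^ 10 := by
  have hM2 : ∀ t ∈ ball (0 : ℂ) ρ, ‖(g t).2‖ ≤ 4 / ρ ^ 2 := fun t ht =>
    (norm_snd_le _).trans (hM t ht)
  obtain ⟨a, ha, hA⟩ := taylor_bound hρ hg.snd hM2 9
  obtain ⟨b, -, hB⟩ := taylor_bound hρ hg.fst (fun t ht => (norm_fst_le _).trans (hM t ht)) 0
  obtain ⟨σ, hσ, hσ1⟩ : ∃ σ : ℝ, ρ⁻¹ = σ ∧ 1 ≤ σ := ⟨_, rfl, (one_le_inv₀ hρ).2 hρ1⟩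
  have hpow : ∀ n, n ≤ 20 → σ ^ n ≤ σ ^ 20 := fun n hn => pow_le_pow_right₀ hσ1 hn
  simp only [div_eq_mul_inv, ← inv_pow, hσ] at ha hA hB hM2 ⊢
  refine ⟨3 * E * a 1, 3 * E * a 4, 3 * E * a 7, ?_, fun ζ p hζ hp => ?_⟩
  · have a1 := ha 4
    have a2 := hpow 6 (by norm_num)
    have a3 : 0 ≤ σ ^ 20 := by positivity
    calc ‖3 * E * a 4‖ = 3 * ‖E‖ * ‖a 4‖ := by simp
      _ ≤ 3 * 2 * (4 * σ ^ 2 * (2 * σ) ^ 4) := by gcongr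
      _ = 384 * σ ^ 6 := by ring
      _ ≤ _ := by linarith
  have n1 : ‖c * ζ‖ = ‖ζ‖ := by rw [norm_mul, hc1, one_mul]
  have n2 : ‖c * (c * ζ)‖ = ‖ζ‖ := by rw [norm_mul, hc1, one_mul, n1]
  have hb : ∀ t : ℂ, ‖t‖ = ‖ζ‖ → t ∈ ball (0 : ℂ) ρ := fun t ht => by
    rw [mem_ball_zero_iff, ht]
    linarith
  have b1 := norm_three_le hc1 2 4 (hA ζ hζ) ((hA (c * ζ) (by rwa [n1])).trans_eq (by rw [n1]))
    ((hA (c * (c * ζ)) (by rwa [n2])).trans_eq (by rw [n2]))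
  have b2 := norm_three_le hc1 2 4 (hM2 ζ (hb _ rfl)) (hM2 _ (hb _ n1)) (hM2 _ (hb _ n2))
  have b3 := norm_three_le hc1 4 8 (hB ζ hζ) ((hB (c * ζ) (by rwa [n1])).trans_eq (by rw [n1]))
    ((hB (c * (c * ζ)) (by rwa [n2])).trans_eq (by rw [n2]))
  have b4 : ‖((Qc ζ : ℝ) : ℂ)‖ ≤ 41 * ‖ζ‖ ^ 10 := by
    rw [norm_real, Real.norm_of_nonneg (Qc_nonneg ζ)]
    exact Qc_upper (by linarith)
  have s1 := sum_rot hc a ζ
  simp only [zero_add, Finset.sum_range_one, pow_zero, mul_one] at b3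
  set T1 := (g ζ).2 - ∑ j ∈ Finset.range (9 + 1), a j * ζ ^ j +
    c ^ 2 * ((g (c * ζ)).2 - ∑ j ∈ Finset.range (9 + 1), a j * (c * ζ) ^ j) +
    c ^ 4 * ((g (c * (c * ζ))).2 - ∑ j ∈ Finset.range (9 + 1), a j * (c * (c * ζ)) ^ j) with h1
  set T2 := (g ζ).2 + c ^ 2 * (g (c * ζ)).2 + c ^ 4 * (g (c * (c * ζ))).2 with h2
  set T3 := (g ζ).1 - b 0 + c ^ 4 * ((g (c * ζ)).1 - b 0) + c ^ 8 * ((g (c * (c * ζ))).1 - b 0)
    with h3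
  have r0 := norm_nonneg ζ
  calc _ = ‖E * T1 + -(4 * (Qc ζ : ℂ) * E * T2) + 2 * p * T3‖ := by
        congr 1
        rw [h1, h2, h3]
        linear_combination E * s1 + 2 * p * b 0 * (c ^ 6 - c ^ 5 + c ^ 3 - c + 1) * hc
    _ ≤ ‖E‖ * ‖T1‖ + 4 * ‖(Qc ζ : ℂ)‖ * ‖E‖ * ‖T2‖ + 2 * ‖p‖ * ‖T3‖ := by
        refine norm_add₃_le.trans_eq ?_
        simp only [norm_mul, norm_neg, Complex.norm_ofNat]
    _ ≤ 2 * (3 * ((((9 : ℕ) : ℝ) + 2) * (4 * σ ^ 2) * (2 * ‖ζ‖ * σ) ^ (9 + 1))) +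
        4 * (41 * ‖ζ‖ ^ 10) * 2 * (3 * (4 * σ ^ 2)) +
        2 * (416 * ‖ζ‖ ^ 9) * (3 * ((((0 : ℕ) : ℝ) + 2) * (4 * σ ^ 2) * (2 * ‖ζ‖ * σ) ^ 1)) := by
        gcongr
    _ = (270336 * σ ^ 12 + 3936 * σ ^ 2 + 39936 * σ ^ 3) * ‖ζ‖ ^ 10 := by
        push_cast
        ring
    _ ≤ _ := by
        have a1 := hpow 12 (by norm_num)
        have a2 := hpow 2 (by norm_num)
        have a3 := hpow 3 (by norm_num)
        have a4 : 0 ≤ σ ^ 20 := by positivity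
        gcongr
        linarith

theorem Setup.false {R : ℝ} {M : ℂ × ℂ × ℂ → ℂ × ℂ} (h : Setup R M) : False := by
  have hR := h.pos
  have hR4 := h.small
  obtain ⟨Γ, hΓ, hco⟩ := h.exists_gamma
  obtain ⟨c, hc, hc3, hc1⟩ := exists_cube_root
  have hp : ∀ ζ : ℂ, ∃ p : ℂ, ‖ζ‖ ≤ 1 → ‖p‖ ≤ 416 * ‖ζ‖ ^ 9 ∧ Grad ζ p := fun ζ => by
    by_cases hζ : ‖ζ‖ ≤ 1
    · obtain ⟨p, hp⟩ := exists_grad hζ
      exact ⟨p, fun _ => hp⟩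
    · exact ⟨0, fun h => absurd h hζ⟩
  choose p hp using hp
  set K : ℝ := 2 ^ 28 / R ^ 10 with hK
  have hK0 : 0 < K := by positivity
  let S : ℂ → ℂ → ℂ := fun ζ u =>
    ((1 - 4 * Qc ζ) * (Γ (ζ, u)).2 * exp (-u) + 2 * p ζ * (Γ (ζ, u)).1) +
      c ^ 2 * ((1 - 4 * Qc ζ) * (Γ (c * ζ, u)).2 * exp (-u) + 2 * (p ζ * c ^ 2) * (Γ (c * ζ, u)).1) +
      c ^ 4 * ((1 - 4 * Qc ζ) * (Γ (c * (c * ζ), u)).2 * exp (-u) +
        2 * (p ζ * c ^ 2 * c ^ 2) * (Γ (c * (c * ζ), u)).1)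
  have nc : ∀ ζ : ℂ, ‖c * ζ‖ = ‖ζ‖ := fun ζ => by rw [norm_mul, hc1, one_mul]
  have hlt : ∀ {ζ : ℂ} {ρ y : ℝ}, 0 < ρ → K * (ρ / 2) ^ 10 = y → K * ‖ζ‖ ^ 10 < y →
      ‖ζ‖ < ρ / 2 := fun hρ e hζ =>
    lt_of_pow_lt_pow_left₀ 10 (by positivity) (lt_of_mul_lt_mul_left (hζ.trans_eq e.symm) hK0.le)
  have hV0 : ∀ ζ u : ℂ, K * ‖ζ‖ ^ 10 < -u.re → -u.re ≤ R / 8 → |u.im| ≤ 2 * (R / 8) →
      (ζ, u, 0) ∈ Vset R := by
    intro ζ u h1 h2 h3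
    obtain ⟨ρ, hρ, r1, r2, r3⟩ := exists_rho hR hR4 (lt_of_le_of_lt (by positivity) h1)
      (by linarith)
    exact mem_Vset hR4 ((hlt hρ r3 h1).trans (half_lt_self hρ)) (by simpa using hρ) r1 r2 h2 h3
  have hWo : IsOpen {x : ℂ × ℂ | (x.1, x.2, 0) ∈ Vset R} :=
    (isOpen_Vset R).preimage (f := fun x : ℂ × ℂ => (x.1, x.2, (0 : ℂ))) (by fun_prop)
  have hI : ∀ (ζ t u : ℂ) (η : ℝ), ‖t‖ = 1 → -1 ≤ η →
      (∀ᶠ τ : ℝ in 𝓝 0, Qc (ζ + τ * t) ≤ Qc ζ + η * τ ^ 2) → K * ‖ζ‖ ^ 10 < -u.re →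
      -u.re ≤ R / 8 / 2 → |u.im| ≤ 2 * (R / 8) →
      (t ^ 2 * S ζ u).re ≤ 6 * η + 960000 / (R / 8) ^ 3 * -u.re := by
    intro ζ t u η ht hη hQ h1 h2 h3
    have one : ∀ ζ' t' p' : ℂ, ‖ζ'‖ = ‖ζ‖ → ‖t'‖ = 1 → Qc ζ' = Qc ζ → Grad ζ' p' →
        (∀ τ : ℝ, Qc (ζ' + τ * t') = Qc (ζ + τ * t)) →
        (t' ^ 2 * ((1 - 4 * Qc ζ) * (Γ (ζ', u)).2 * exp (-u) + 2 * p' * (Γ (ζ', u)).1)).re ≤
          2 * η + 320000 * (-u.re) / (R / 8) ^ 3 := by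
      intro ζ' t' p' e1 e2 e3 e4 e5
      have hv := hV0 ζ' u (by rwa [e1]) (by linarith) h3
      rw [← e3]
      refine h.ineq e2 ((norm_fst_le (ζ', u, (0 : ℂ))).trans_lt hv.1) hη
        (by simpa only [e5, e3] using hQ) e4 (by simpa using hv.2.1) (by linarith) (by linarith)
        (hco _ _ hv)
    have hζ : ‖ζ‖ ≤ 1 := by
      have := (norm_fst_le (ζ, u, (0 : ℂ))).trans_lt (hV0 ζ u h1 (by linarith) h3).1
      linarith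
    have g0 := (hp ζ hζ).2
    have q1 : ∀ (z s : ℂ) (τ : ℝ), Qc (c * z + τ * (c * s)) = Qc (z + τ * s) := fun z s τ => by
      rw [← Qc_rot hc3 (z + τ * s)]
      congr 1
      ring
    have i0 := one ζ t _ rfl ht rfl g0 fun _ => rfl
    have i1 := one (c * ζ) (c * t) _ (nc ζ) (by rw [nc, ht]) (Qc_rot hc3 ζ) (g0.rot hc3) (q1 ζ t)
    have i2 := one (c * (c * ζ)) (c * (c * t)) _ (by rw [nc, nc]) (by rw [nc, nc, ht])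
      (by rw [Qc_rot hc3, Qc_rot hc3]) ((g0.rot hc3).rot hc3) fun τ => by rw [q1, q1]
    have := add_le_add (add_le_add i0 i1) i2
    rw [← add_re, ← add_re] at this
    refine (le_of_eq (congrArg re ?_)).trans (this.trans_eq (by ring))
    simp only [S]
    ring
  set C := 400000 * (K / 1024) ^ 2 + 960000 / (R / 8) ^ 3 + 1602 with hC
  have c1 : 0 ≤ 400000 * (K / 1024) ^ 2 := by positivity
  have c2 : 0 ≤ 960000 / (R / 8) ^ 3 := by positivity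
  refine fin_false (S := S) (X := R / 8) (C := C) (K := K) (r0 := 1 / 2) (by positivity)
    (by positivity) hK0 (by norm_num) (fun ζ u h1 h2 h3 => ?_) (fun u h1 h2 h3 => ?_)
    (fun x u h0 h1 h2 h3 h4 => ?_) (fun x u h0 h1 h2 h3 h4 => ?_)
  · have an : ∀ ζ' p' : ℂ, ‖ζ'‖ = ‖ζ‖ → AnalyticAt ℂ (fun v =>
        (1 - 4 * Qc ζ) * (Γ (ζ', v)).2 * exp (-v) + 2 * p' * (Γ (ζ', v)).1) u := fun ζ' p' e => by
      have ho : IsOpen ((fun v : ℂ => (ζ', v)) ⁻¹' {x : ℂ × ℂ | (x.1, x.2, 0) ∈ Vset R}) :=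
        hWo.preimage (by fun_prop)
      have := (hΓ.comp (f := fun v : ℂ => (ζ', v)) (by fun_prop) (mapsTo_preimage _ _)).analyticAt
        (ho.mem_nhds (hV0 ζ' u (by rwa [e]) h2 h3))
      exact ((analyticAt_const.mul (analyticAt_snd.comp this)).mul (by fun_prop)).add
        (analyticAt_const.mul (analyticAt_fst.comp this))
    exact ((an ζ _ rfl).add (analyticAt_const.mul (an _ _ (nc ζ)))).add
      (analyticAt_const.mul (an (c * (c * ζ)) _ (by rw [nc, nc])))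
  · obtain ⟨ρ, hρ, r1, r2, r3⟩ := exists_rho hR hR4 h1 (by linarith)
    have hv : ∀ ζ ∈ ball (0 : ℂ) ρ, ∀ s ∈ ball (0 : ℂ) ρ, (ζ, u, s) ∈ Vset R := fun ζ hζ s hs =>
      mem_Vset hR4 (mem_ball_zero_iff.1 hζ) (mem_ball_zero_iff.1 hs) r1 r2 h2 h3
    have hE : ‖exp (-u)‖ ≤ 2 := by
      have := (abs_le.1 (Real.abs_exp_sub_one_le (x := -u.re)
        (by rw [abs_of_pos h1]; linarith))).2
      rw [abs_of_pos h1] at this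
      rw [norm_exp, neg_re]
      linarith
    obtain ⟨a1, a4, a7, b1, b2⟩ := taylor_sym hc hc1 hE hρ (by linarith) (g := fun ζ => Γ (ζ, u))
      (hΓ.comp (f := fun ζ : ℂ => (ζ, u)) (by fun_prop) fun ζ hζ => hv ζ hζ 0 (mem_ball_self hρ))
      fun ζ hζ => h.coef_le hρ (hv ζ hζ) (hco _ _ (hv ζ hζ 0 (mem_ball_self hρ)))
    have e : 400000 / ρ ^ 20 ≤ C / u.re ^ 2 := by
      have e1 : u.re ^ 2 = (K / 1024) ^ 2 * ρ ^ 20 := by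
        rw [← neg_sq, ← r3]
        ring
      have e2 : 400000 / ρ ^ 20 = 400000 * (K / 1024) ^ 2 / u.re ^ 2 := by
        rw [e1]
        field_simp
      rw [e2]
      gcongr
      linarith
    refine ⟨a1, a4, a7, b1.trans e, fun ζ hζ => ?_⟩
    have hζ' := hlt hρ r3 hζ
    refine (b2 ζ (p ζ) hζ' (hp ζ (by linarith)).1).trans ?_
    rw [mul_div_right_comm]
    gcongr
  · have hx : |x| ^ 9 ≤ (1 / 2) ^ 9 := by gcongr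
    have hx' : x ^ 9 ≤ |x| ^ 9 := by
      rw [← abs_pow]
      exact le_abs_self _
    have := hI x I u (-32 * x ^ 9 + 7 * x ^ 10) norm_I
      (by norm_num at hx; nlinarith [sq_nonneg (x ^ 5)]) (Qc_real h0) (by simpa using h2) h3 h4
    rw [I_sq, neg_one_mul, neg_re] at this
    have hy : 0 ≤ -u.re := le_trans (by positivity) h2.le
    have : 960000 / (R / 8) ^ 3 * -u.re ≤ C * -u.re := by
      gcongr
      linarith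
    linarith
  · have hx : 0 ≤ x ^ 8 := by positivity
    have := hI (x * I) 1 u (267 * x ^ 8) norm_one (by linarith) (Qc_imag h0 (by linarith))
      (by simpa using h2) h3 h4
    rw [one_pow, one_mul] at this
    have hy : 0 ≤ -u.re := le_trans (by positivity) h2.le
    have : 960000 / (R / 8) ^ 3 * -u.re ≤ C * -u.re := by
      gcongr
      linarith
    have : 1602 * x ^ 8 ≤ C * x ^ 8 := by
      gcongr
      linarith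
    linarith

end Pool.Agent.Lib.MP_08f711_an.CM
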