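import Pool.Agent.Lib.MP_08f711_an.CM.QDef

/-!
A barrier estimate on a triangle.
-/

open Complex Filter Topology Set Metric Asymptotics

namespace Pool.Agent.Lib.MP_08f711_an.CM

/-- The triangle with vertices `± i X` and `-X`, cut off at distance `δ` from the imaginary axis. -/
def Tri (δ X : ℝ) : Set ℂ := {u | δ ≤ -u.re ∧ -u.re + |u.im| ≤ X}

theorem re_Barrier (u : ℂ) (c : ℝ) : (I * ((u - I * c) ^ 2)⁻¹).re =
    2 * -u.re * (c - u.im) / (u.re ^ 2 + (c - u.im) ^ 2) ^ 2 := by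
  have e : normSq (u - I * c) = u.re ^ 2 + (c - u.im) ^ 2 := by
    simp [normSq_apply]
    ring
  rw [I_mul_re, inv_im, map_pow, e, neg_div, neg_neg]
  congr 1
  simp [pow_two]
  ring

/-- The barrier. -/
noncomputable def beta_Barrier (D X : ℝ) (u : ℂ) : ℂ :=
  (2 * D : ℝ) * (I * ((u - I * X) ^ 2)⁻¹ - I * ((u - I * (-X : ℝ)) ^ 2)⁻¹)

theorem beta_re_Barrier (D X : ℝ) (u : ℂ) : (beta_Barrier D X u).re =
    2 * D * (2 * -u.re * (X - u.im) / (u.re ^ 2 + (X - u.im) ^ 2) ^ 2 +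
      2 * -u.re * (X + u.im) / (u.re ^ 2 + (X + u.im) ^ 2) ^ 2) := by
  rw [beta_Barrier, re_ofReal_mul, sub_re, re_Barrier, re_Barrier,
    show (-X - u.im) ^ 2 = (X + u.im) ^ 2 by ring]
  ring

theorem beta_an_Barrier (D X : ℝ) {u : ℂ} (hu : u.re ≠ 0) : AnalyticAt ℂ (beta_Barrier D X) u := by
  have h : ∀ c : ℝ, AnalyticAt ℂ (fun u : ℂ => I * ((u - I * c) ^ 2)⁻¹) u := fun c =>
    analyticAt_const.mul (AnalyticAt.inv (f := fun u : ℂ => (u - I * c) ^ 2) (by fun_prop)
      (pow_ne_zero 2 fun h => hu (by simpa using congrArg re h)))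
  exact analyticAt_const.mul ((h X).sub (h (-X)))

theorem barrier {F Z : ℂ → ℂ} {δ X A D y : ℝ} (hδ : 0 < δ) (hD : 0 ≤ D)
    (hF : ∀ u ∈ Tri δ X, AnalyticAt ℂ F u) (hZ : ∀ u ∈ Tri δ X, AnalyticAt ℂ Z u)
    (h1 : ∀ u ∈ Tri δ X, -u.re = δ → normSq (F u) ≤ (1 - 4 * Qc (Z u)) * Real.exp A)
    (h2 : ∀ u ∈ Tri δ X, normSq (F u) ≤ (1 - 4 * Qc (Z u)) * Real.exp (A + D / u.re ^ 2))
    (hy : δ ≤ y) (hyX : y ≤ X) :
    normSq (F (-y)) ≤ (1 - 4 * Qc (Z (-y))) * Real.exp (A + 8 * D * y / X ^ 3) := by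
  have hK : IsCompact (Tri δ X) := (isCompact_closedBall (0 : ℂ) X).of_isClosed_subset
    ((isClosed_le (f := fun _ : ℂ => δ) (g := fun u : ℂ => -u.re) (by fun_prop) (by fun_prop)).inter
      (isClosed_le (f := fun u : ℂ => -u.re + |u.im|) (g := fun _ : ℂ => X) (by fun_prop)
        (by fun_prop)))
    fun u hu => mem_closedBall_zero_iff.2 ((norm_le_abs_re_add_abs_im u).trans (by
      rw [abs_of_neg (by linarith [hu.1])]
      exact hu.2))
  have hG : ∀ u ∈ Tri δ X, AnalyticAt ℂ (fun u => F u * exp (-(beta_Barrier D X u / 2))) u :=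
    fun u hu => by
      have := beta_an_Barrier D X (u := u) (by linarith [hu.1])
      have := hF u hu
      fun_prop
  have e : ∀ u, normSq (F u * exp (-(beta_Barrier D X u / 2))) =
      normSq (F u) * Real.exp (-(beta_Barrier D X u).re) := fun u => by
    rw [map_mul, normSq_eq_norm_sq (exp _), norm_exp, ← Real.exp_nat_mul]
    congr 2
    simp
    ring
  have q : ∀ u ∈ Tri δ X, 0 ≤ 1 - 4 * Qc (Z u) := fun u hu =>
    nonneg_of_mul_nonneg_left ((normSq_nonneg _).trans (h2 u hu)) (Real.exp_pos _)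
  have key : ∀ u ∈ Tri δ X, ∀ t : ℝ, t ≤ (beta_Barrier D X u).re →
      normSq (F u) ≤ (1 - 4 * Qc (Z u)) * Real.exp (A + t) →
      normSq (F u * exp (-(beta_Barrier D X u / 2))) + 4 * Real.exp A * Qc (Z u) ≤ Real.exp A := by
    intro u hu t ht h
    have a1 := mul_le_mul_of_nonneg_right h (Real.exp_pos (-(beta_Barrier D X u).re)).le
    rw [mul_assoc, ← Real.exp_add] at a1
    have a2 := mul_le_mul_of_nonneg_left (Real.exp_le_exp.2
      (show A + t + -(beta_Barrier D X u).re ≤ A by linarith)) (q u hu)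
    rw [e]
    linarith
  have hy' : (-y : ℂ) ∈ Tri δ X := ⟨by simpa using hy, by simpa using hyX⟩
  have hm := max_principle hK (B := Real.exp A)
    (u := fun u => normSq (F u * exp (-(beta_Barrier D X u / 2))) + 4 * Real.exp A * Qc (Z u))
    (fun u hu => by
      have a1 := (hG u hu).continuousAt
      have a2 := (hZ u hu).continuousAt
      exact ((continuous_normSq.continuousAt.comp a1).add (continuousAt_const.mul
        (continuous_Qc.continuousAt.comp a2))).continuousWithinAt)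
    (fun u hu => by
      have b0 : 0 < -u.re := hδ.trans_le hu.1
      have b1 : -u.re ≤ X - u.im := by linarith [hu.2, le_abs_self u.im]
      have b2 : -u.re ≤ X + u.im := by linarith [hu.2, neg_abs_le u.im]
      have c1 : 0 ≤ 2 * -u.re * (X - u.im) / (u.re ^ 2 + (X - u.im) ^ 2) ^ 2 :=
        div_nonneg (mul_nonneg (by linarith) (by linarith)) (sq_nonneg _)
      have c2 : 0 ≤ 2 * -u.re * (X + u.im) / (u.re ^ 2 + (X + u.im) ^ 2) ^ 2 :=
        div_nonneg (mul_nonneg (by linarith) (by linarith)) (sq_nonneg _)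
      rcases hu.1.eq_or_lt with d1 | d1
      · refine .inl (key u hu 0 ?_ (by simpa using h1 u hu d1.symm))
        rw [beta_re_Barrier]
        positivity
      rcases hu.2.eq_or_lt with d2 | d2
      · refine .inl (key u hu _ ?_ (h2 u hu))
        have c3 : D / u.re ^ 2 =
            2 * D * (2 * -u.re * -u.re / (u.re ^ 2 + (-u.re) ^ 2) ^ 2) := by
          have : u.re ≠ 0 := by linarith
          field_simp
          ring
        rw [beta_re_Barrier, c3]
        refine mul_le_mul_of_nonneg_left ?_ (by positivity)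
        rcases abs_cases u.im with d3 | d3
        · rw [show X - u.im = -u.re by linarith [d3.1]]
          linarith
        · rw [show X + u.im = -u.re by linarith [d3.1]]
          linarith
      · obtain ⟨l, l1, l2⟩ := lap_Qc (hZ u hu)
        refine .inr ⟨mem_of_superset (((isOpen_lt (f := fun _ : ℂ => δ) (g := fun u : ℂ => -u.re)
          (by fun_prop) (by fun_prop)).inter (isOpen_lt (f := fun u : ℂ => -u.re + |u.im|)
            (g := fun _ : ℂ => X) (by fun_prop) (by fun_prop))).mem_nhds ⟨d1, d2⟩)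
          fun v hv => ⟨le_of_lt hv.1, le_of_lt hv.2⟩, _, ?_,
          (lap_normSq (hG u hu)).add (l2.const_mul (4 * Real.exp A))⟩
        have l3 : 0 ≤ l := le_trans (mul_nonneg (mul_nonneg (by norm_num)
          (pow_nonneg (normSq_nonneg _) 4)) (normSq_nonneg _)) l1
        exact add_nonneg (mul_nonneg (by norm_num) (normSq_nonneg _)) (by positivity))
    _ hy'
  simp only [e] at hm
  have hy0 : 0 < y := hδ.trans_le hy
  have hX : 0 < X := hy0.trans_le hyX
  have f1 : (beta_Barrier D X (-y)).re ≤ 8 * D * y / X ^ 3 := by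
    rw [beta_re_Barrier]
    simp only [neg_re, ofReal_re, neg_im, ofReal_im, neg_zero, sub_zero, add_zero, neg_neg]
    calc _ = 8 * D * y * X / ((-y) ^ 2 + X ^ 2) ^ 2 := by ring
      _ ≤ 8 * D * y * X / (X ^ 2) ^ 2 := by
          gcongr
          linarith [sq_nonneg (-y)]
      _ = _ := by field_simp
  have f2 : normSq (F (-y)) * Real.exp (-(beta_Barrier D X (-y)).re) ≤
      (1 - 4 * Qc (Z (-y))) * Real.exp A := by linarith
  have f3 := mul_le_mul_of_nonneg_right f2 (Real.exp_pos (beta_Barrier D X (-y)).re).le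
  rw [mul_assoc, mul_assoc, ← Real.exp_add, ← Real.exp_add, neg_add_cancel, Real.exp_zero,
    mul_one] at f3
  exact f3.trans (mul_le_mul_of_nonneg_left (Real.exp_le_exp.2 (by linarith)) (q _ hy'))

theorem barrier_re {Ψ : ℂ → ℂ} {δ X A D y : ℝ} (hδ : 0 < δ) (hD : 0 ≤ D)
    (hΨ : ∀ u ∈ Tri δ X, AnalyticAt ℂ Ψ u) (h1 : ∀ u ∈ Tri δ X, -u.re = δ → (Ψ u).re ≤ A)
    (h2 : ∀ u ∈ Tri δ X, (Ψ u).re ≤ A + D / u.re ^ 2) (hy : δ ≤ y) (hyX : y ≤ X) :
    (Ψ (-y)).re ≤ A + 8 * D * y / X ^ 3 := by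
  have e : ∀ (u : ℂ) (t : ℝ),
      normSq (exp (Ψ u / 2)) ≤ (1 - 4 * Qc 0) * Real.exp t ↔ (Ψ u).re ≤ t := fun u t => by
    rw [Qc_zero, mul_zero, sub_zero, one_mul, normSq_eq_norm_sq, norm_exp, ← Real.exp_nat_mul,
      Real.exp_le_exp, show ((2 : ℕ) : ℝ) * (Ψ u / 2).re = (Ψ u).re by simp; ring]
  exact (e _ _).1 (barrier (F := fun u => exp (Ψ u / 2)) (Z := fun _ => 0) hδ hD
    (fun u hu => by have := hΨ u hu; fun_prop) (fun _ _ => analyticAt_const)
    (fun u hu h => (e _ _).2 (h1 u hu h)) (fun u hu => (e _ _).2 (h2 u hu)) hy hyX)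

end Pool.Agent.Lib.MP_08f711_an.CM
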