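import Mathlib

/-!
Convexity of the homogeneous model.
-/

open Complex Filter Topology Set

namespace Pool.Agent.Lib.MP_08f711_an.CM

theorem hess_Conv (a ζ : ℂ) :
    0 ≤ ((520 * a ^ 3 * (starRingEnd ℂ) a ^ 5 + 280 * a ^ 6 * (starRingEnd ℂ) a ^ 2 +
        10 * (starRingEnd ℂ) a ^ 8) * ζ ^ 2 +
      (1300 * a ^ 4 * (starRingEnd ℂ) a ^ 4 + 160 * a ^ 7 * (starRingEnd ℂ) a +
        160 * a * (starRingEnd ℂ) a ^ 7) * (ζ * (starRingEnd ℂ) ζ) +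
      (520 * a ^ 5 * (starRingEnd ℂ) a ^ 3 + 10 * a ^ 8 + 280 * a ^ 2 * (starRingEnd ℂ) a ^ 6) *
        (starRingEnd ℂ) ζ ^ 2).re := by
  obtain ⟨T, hT⟩ : ∃ T : ℂ, T = 52 * a ^ 3 * (starRingEnd ℂ) a ^ 5 +
    28 * a ^ 6 * (starRingEnd ℂ) a ^ 2 + (starRingEnd ℂ) a ^ 8 := ⟨_, rfl⟩
  have hn : ((normSq a : ℝ) : ℂ) = a * (starRingEnd ℂ) a := (mul_conj a).symm
  have hz : ((normSq ζ : ℝ) : ℂ) = ζ * (starRingEnd ℂ) ζ := (mul_conj ζ).symm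
  have hα : (((a ^ 6).re : ℝ) : ℂ) = (a ^ 6 + (starRingEnd ℂ) a ^ 6) / 2 := by
    rw [re_eq_add_conj, map_pow]
  have hc : (starRingEnd ℂ) T = 52 * (starRingEnd ℂ) a ^ 3 * a ^ 5 +
      28 * (starRingEnd ℂ) a ^ 6 * a ^ 2 + a ^ 8 := by
    rw [hT]
    simp only [map_add, map_mul, map_pow, conj_conj, map_ofNat]
  have hr : (((T * ζ ^ 2).re : ℝ) : ℂ) =
      (T * ζ ^ 2 + (starRingEnd ℂ) T * (starRingEnd ℂ) ζ ^ 2) / 2 := by
    rw [re_eq_add_conj, map_mul, map_pow]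
  have e1 : normSq T = normSq a ^ 2 * (3433 * (normSq a ^ 3) ^ 2 +
      3016 * normSq a ^ 3 * (a ^ 6).re + 112 * (a ^ 6).re ^ 2) := by
    apply ofReal_injective
    rw [← mul_conj T, hc]
    push_cast
    rw [hn, hα, hT]
    ring
  have e2 : (520 * a ^ 3 * (starRingEnd ℂ) a ^ 5 + 280 * a ^ 6 * (starRingEnd ℂ) a ^ 2 +
        10 * (starRingEnd ℂ) a ^ 8) * ζ ^ 2 +
      (1300 * a ^ 4 * (starRingEnd ℂ) a ^ 4 + 160 * a ^ 7 * (starRingEnd ℂ) a +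
        160 * a * (starRingEnd ℂ) a ^ 7) * (ζ * (starRingEnd ℂ) ζ) +
      (520 * a ^ 5 * (starRingEnd ℂ) a ^ 3 + 10 * a ^ 8 + 280 * a ^ 2 * (starRingEnd ℂ) a ^ 6) *
        (starRingEnd ℂ) ζ ^ 2 = ((20 * (T * ζ ^ 2).re +
          20 * (normSq ζ * (normSq a * (65 * normSq a ^ 3 + 16 * (a ^ 6).re))) : ℝ) : ℂ) := by
    push_cast
    rw [hr, hc, hn, hα, hz, hT]
    ring
  rw [e2, ofReal_re]
  have n0 := normSq_nonneg a
  have h1 : |(a ^ 6).re| ≤ normSq a ^ 3 := by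
    refine (abs_re_le_norm _).trans_eq ?_
    rw [norm_pow, normSq_eq_norm_sq]
    ring
  obtain ⟨h2, h3⟩ := abs_le.1 h1
  have m0 : 0 ≤ normSq a ^ 3 := by positivity
  have h4 : ‖T‖ ≤ normSq a * (65 * normSq a ^ 3 + 16 * (a ^ 6).re) := by
    refine abs_le_of_sq_le_sq' ?_ (mul_nonneg n0 (by linarith)) |>.2
    rw [← normSq_eq_norm_sq, e1]
    nlinarith [mul_nonneg (sq_nonneg (normSq a)) (mul_nonneg (sub_nonneg.2 h3)
      (show 0 ≤ 11 * normSq a ^ 3 - 2 * (a ^ 6).re by linarith))]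
  have h5 : |(T * ζ ^ 2).re| ≤ ‖T‖ * normSq ζ := by
    refine (abs_re_le_norm _).trans_eq ?_
    rw [norm_mul, norm_pow, normSq_eq_norm_sq]
  nlinarith [(abs_le.1 h5).1, mul_le_mul_of_nonneg_right h4 (normSq_nonneg ζ)]

theorem val_Conv (a : ℂ) : 26 * ‖a‖ ^ 10 + 10 * ‖a‖ ^ 4 * (a ^ 6).re =
    (26 * a ^ 5 * (starRingEnd ℂ) a ^ 5 + 5 * a ^ 8 * (starRingEnd ℂ) a ^ 2 +
      5 * a ^ 2 * (starRingEnd ℂ) a ^ 8).re := by
  have hn : ((normSq a : ℝ) : ℂ) = a * (starRingEnd ℂ) a := (mul_conj a).symm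
  have hα : (((a ^ 6).re : ℝ) : ℂ) = (a ^ 6 + (starRingEnd ℂ) a ^ 6) / 2 := by
    rw [re_eq_add_conj, map_pow]
  have e : 26 * a ^ 5 * (starRingEnd ℂ) a ^ 5 + 5 * a ^ 8 * (starRingEnd ℂ) a ^ 2 +
      5 * a ^ 2 * (starRingEnd ℂ) a ^ 8 =
      ((26 * normSq a ^ 5 + 10 * normSq a ^ 2 * (a ^ 6).re : ℝ) : ℂ) := by
    push_cast
    rw [hn, hα]
    ring
  rw [e, ofReal_re, normSq_eq_norm_sq]
  ring

theorem re_deriv_Conv {g : ℝ → ℂ} {g' : ℂ} {s : ℝ} (h : HasDerivAt g g' s) :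
    HasDerivAt (fun s => (g s).re) g'.re s :=
  reCLM.hasFDerivAt.comp_hasDerivAt s h

theorem line_Conv (z ζ : ℂ) : ConvexOn ℝ univ (fun s : ℝ =>
    26 * ‖z + s * ζ‖ ^ 10 + 10 * ‖z + s * ζ‖ ^ 4 * ((z + s * ζ) ^ 6).re) := by
  have ha : ∀ s : ℝ, HasDerivAt (fun s : ℝ => z + s * ζ) ζ s := fun s => by
    simpa using ((hasDerivAt_id s).ofReal_comp.mul_const ζ).const_add z
  have hb : ∀ s : ℝ, HasDerivAt (fun s : ℝ => (starRingEnd ℂ) (z + s * ζ))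
      ((starRingEnd ℂ) ζ) s := fun s => (ha s).star
  obtain ⟨a, hA⟩ : ∃ a : ℝ → ℂ, a = fun s : ℝ => z + s * ζ := ⟨_, rfl⟩
  have hA' : ∀ s : ℝ, z + s * ζ = a s := fun s => by rw [hA]
  simp only [hA', val_Conv] at ha hb ⊢
  have d1 : ∀ s : ℝ, HasDerivAt (fun s => (26 * a s ^ 5 * (starRingEnd ℂ) (a s) ^ 5 +
      5 * a s ^ 8 * (starRingEnd ℂ) (a s) ^ 2 + 5 * a s ^ 2 * (starRingEnd ℂ) (a s) ^ 8).re)
      ((130 * a s ^ 4 * (starRingEnd ℂ) (a s) ^ 5 + 40 * a s ^ 7 * (starRingEnd ℂ) (a s) ^ 2 +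
        10 * a s * (starRingEnd ℂ) (a s) ^ 8) * ζ +
      (130 * a s ^ 5 * (starRingEnd ℂ) (a s) ^ 4 + 10 * a s ^ 8 * (starRingEnd ℂ) (a s) +
        40 * a s ^ 2 * (starRingEnd ℂ) (a s) ^ 7) * (starRingEnd ℂ) ζ).re s := fun s => by
    refine re_deriv_Conv (HasDerivAt.congr_deriv
      ((((((ha s).fun_pow 5).const_mul 26).fun_mul ((hb s).fun_pow 5)).fun_add
        ((((ha s).fun_pow 8).const_mul 5).fun_mul ((hb s).fun_pow 2))).fun_add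
        ((((ha s).fun_pow 2).const_mul 5).fun_mul ((hb s).fun_pow 8))) ?_)
    push_cast
    ring
  have d2 : ∀ s : ℝ, HasDerivAt (fun s =>
      ((130 * a s ^ 4 * (starRingEnd ℂ) (a s) ^ 5 + 40 * a s ^ 7 * (starRingEnd ℂ) (a s) ^ 2 +
        10 * a s * (starRingEnd ℂ) (a s) ^ 8) * ζ +
      (130 * a s ^ 5 * (starRingEnd ℂ) (a s) ^ 4 + 10 * a s ^ 8 * (starRingEnd ℂ) (a s) +
        40 * a s ^ 2 * (starRingEnd ℂ) (a s) ^ 7) * (starRingEnd ℂ) ζ).re)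
      ((520 * a s ^ 3 * (starRingEnd ℂ) (a s) ^ 5 + 280 * a s ^ 6 * (starRingEnd ℂ) (a s) ^ 2 +
        10 * (starRingEnd ℂ) (a s) ^ 8) * ζ ^ 2 +
      (1300 * a s ^ 4 * (starRingEnd ℂ) (a s) ^ 4 + 160 * a s ^ 7 * (starRingEnd ℂ) (a s) +
        160 * a s * (starRingEnd ℂ) (a s) ^ 7) * (ζ * (starRingEnd ℂ) ζ) +
      (520 * a s ^ 5 * (starRingEnd ℂ) (a s) ^ 3 + 10 * a s ^ 8 +
        280 * a s ^ 2 * (starRingEnd ℂ) (a s) ^ 6) * (starRingEnd ℂ) ζ ^ 2).re s := fun s => by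
    refine re_deriv_Conv (HasDerivAt.congr_deriv
      ((((((((ha s).fun_pow 4).const_mul 130).fun_mul ((hb s).fun_pow 5)).fun_add
        ((((ha s).fun_pow 7).const_mul 40).fun_mul ((hb s).fun_pow 2))).fun_add
        (((ha s).const_mul 10).fun_mul ((hb s).fun_pow 8))).mul_const ζ).fun_add
      (((((((ha s).fun_pow 5).const_mul 130).fun_mul ((hb s).fun_pow 4)).fun_add
        ((((ha s).fun_pow 8).const_mul 10).fun_mul (hb s))).fun_add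
        ((((ha s).fun_pow 2).const_mul 40).fun_mul ((hb s).fun_pow 7))).mul_const
          ((starRingEnd ℂ) ζ))) ?_)
    push_cast
    ring
  refine Monotone.convexOn_univ_of_deriv (fun s => (d1 s).differentiableAt) ?_
  rw [funext fun s => (d1 s).deriv]
  refine monotone_of_deriv_nonneg (fun s => (d2 s).differentiableAt) fun s => ?_
  rw [(d2 s).deriv]
  exact hess_Conv _ _

theorem convexOn_model :
    ConvexOn ℝ univ (fun z : ℂ => 26 * ‖z‖ ^ 10 + 10 * ‖z‖ ^ 4 * (z ^ 6).re) := by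
  refine ⟨convex_univ, fun x _ y _ a b a0 b0 ab => ?_⟩
  have h := (line_Conv x (y - x)).2 (mem_univ 0) (mem_univ 1) a0 b0 ab
  have e : x + ((a • (0 : ℝ) + b • (1 : ℝ) : ℝ) : ℂ) * (y - x) = a • x + b • y := by
    obtain rfl : a = 1 - b := by linarith
    simp only [smul_eq_mul, real_smul]
    push_cast
    ring
  have e0 : x + ((0 : ℝ) : ℂ) * (y - x) = x := by simp
  have e1 : x + ((1 : ℝ) : ℂ) * (y - x) = y := by simp
  simpa only [e, e0, e1] using h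

theorem convex_model :
    Convex ℝ {x : ℂ × ℂ | x.2.re + (26 * ‖x.1‖ ^ 10 + 10 * ‖x.1‖ ^ 4 * (x.1 ^ 6).re) < 0} := by
  have h1 : ConvexOn ℝ univ (fun x : ℂ × ℂ => x.2.re) :=
    (reLm ∘ₗ LinearMap.snd ℝ ℂ ℂ).convexOn convex_univ
  have h2 := convexOn_model.comp_linearMap (LinearMap.fst ℝ ℂ ℂ)
  simpa using (h1.add h2).convex_lt 0

end Pool.Agent.Lib.MP_08f711_an.CM
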