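import Pool.Agent.Lib.MP_08f711_an.CM.QDef
import Pool.Agent.Lib.MP_08f711_an.Domain

/-!
Properties of the domain where `rc` is negative.
-/

open Complex Filter Topology Set Metric Asymptotics
open scoped ContDiff

namespace Pool.Agent.Lib.MP_08f711_an.CM

/-- The defining function. -/
noncomputable def rc (x : ℂ × ℂ) : ℝ := x.2.re + normSq x.2 + Qc x.1

theorem contDiff_rc : ContDiff ℝ ∞ rc := by
  have hre : ContDiff ℝ ∞ Complex.re := reCLM.contDiff
  have him : ContDiff ℝ ∞ Complex.im := imCLM.contDiff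
  have hn : ContDiff ℝ ∞ (fun z : ℂ => normSq z) := by
    simp only [normSq_apply]
    fun_prop
  have hQ := contDiff_Qc
  unfold rc
  fun_prop

theorem continuous_rc : Continuous rc := contDiff_rc.continuous

theorem weighted_Dom (x : ℂ × ℂ) (t : ℝ) :
    rc ((t : ℂ) * x.1, -1 / 2 + (t : ℂ) ^ 5 * (x.2 + 1 / 2)) =
      t ^ 10 * (normSq (x.2 + 1 / 2) + 16 * normSq x.1 ^ 5 +
        20 * normSq x.1 ^ 2 * (x.1 ^ 3).re ^ 2) +
      t ^ 11 * (4 * normSq x.1 * (x.1 ^ 3).re ^ 3) + t ^ 12 * normSq x.1 ^ 6 - 1 / 4 := by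
  have e1 : (((t : ℂ) * x.1) ^ 3).re = t ^ 3 * (x.1 ^ 3).re := by
    rw [mul_pow, ← ofReal_pow, re_ofReal_mul]
  simp only [rc, Qc_alt, e1, map_mul, normSq_ofReal]
  generalize normSq x.1 = n
  generalize (x.1 ^ 3).re = u
  simp only [normSq_apply, ← ofReal_pow, add_re, add_im, re_ofReal_mul, im_ofReal_mul]
  norm_num
  ring

theorem rc_split_Dom (x : ℂ × ℂ) :
    rc x = (normSq (x.2 + 1 / 2) + 16 * normSq x.1 ^ 5 +
        20 * normSq x.1 ^ 2 * (x.1 ^ 3).re ^ 2) +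
      4 * normSq x.1 * (x.1 ^ 3).re ^ 3 + normSq x.1 ^ 6 - 1 / 4 := by
  have h := weighted_Dom x 1
  have e : (((1 : ℝ) : ℂ) * x.1, -1 / 2 + ((1 : ℝ) : ℂ) ^ 5 * (x.2 + 1 / 2)) = x := by
    ext <;> simp; ring
  rw [e] at h
  rw [h]; ring

theorem bounds_Dom (x : ℂ × ℂ) :
    16 * ‖x.1‖ ^ 10 ≤ normSq (x.2 + 1 / 2) + 16 * normSq x.1 ^ 5 +
        20 * normSq x.1 ^ 2 * (x.1 ^ 3).re ^ 2 ∧
      -(4 * ‖x.1‖ ^ 11) ≤ 4 * normSq x.1 * (x.1 ^ 3).re ^ 3 ∧ normSq x.1 ^ 6 = ‖x.1‖ ^ 12 := by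
  have h0 := normSq_nonneg (x.2 + 1 / 2)
  have h1 : |(x.1 ^ 3).re| ≤ ‖x.1‖ ^ 3 := (abs_re_le_norm _).trans_eq (norm_pow _ _)
  have h2 : |(x.1 ^ 3).re ^ 3| ≤ (‖x.1‖ ^ 3) ^ 3 := by
    rw [abs_pow]; exact pow_le_pow_left₀ (abs_nonneg _) h1 3
  have h3 := mul_le_mul_of_nonneg_left (abs_le.mp h2).1 (sq_nonneg ‖x.1‖)
  have h4 : 0 ≤ 20 * (‖x.1‖ ^ 2) ^ 2 * (x.1 ^ 3).re ^ 2 := by positivity
  rw [normSq_eq_norm_sq x.1]
  refine ⟨by nlinarith, by nlinarith, by ring⟩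

theorem small_Dom {x : ℂ × ℂ} (hx : rc x ≤ 0) : 12 * ‖x.1‖ ^ 10 ≤ 1 / 4 ∧ ‖x.1‖ ≤ 1 := by
  have h1 := Qc_lower x.1
  have h2 : -(1 / 4) ≤ x.2.re + normSq x.2 := by
    rw [normSq_apply]; nlinarith [sq_nonneg (x.2.re + 1 / 2), sq_nonneg x.2.im]
  unfold rc at hx
  refine ⟨by linarith, ?_⟩
  by_contra h
  push Not at h
  have h4 : 1 ≤ ‖x.1‖ ^ 10 := one_le_pow₀ h.le
  linarith

theorem isConnected_dom : IsConnected {x | rc x < 0} := by
  refine IsPathConnected.isConnected ⟨((0 : ℂ), (-1 / 2 : ℂ)), ?_, fun x hx => ?_⟩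
  · simp only [mem_ofPred_eq, rc, Qc_zero, normSq_apply]
    norm_num
  · refine JoinedIn.ofLine (f := fun t : ℝ => ((t : ℂ) * x.1, -1 / 2 + (t : ℂ) ^ 5 * (x.2 + 1 / 2)))
      (by fun_prop) (by simp) (by ext <;> simp; ring) ?_
    rintro _ ⟨t, ⟨ht0, ht1⟩, rfl⟩
    simp only [mem_ofPred_eq] at hx ⊢
    rw [weighted_Dom]
    rw [rc_split_Dom] at hx
    obtain ⟨hA, hR, hS⟩ := bounds_Dom x
    set A := normSq (x.2 + 1 / 2) + 16 * normSq x.1 ^ 5 + 20 * normSq x.1 ^ 2 * (x.1 ^ 3).re ^ 2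
    set R := 4 * normSq x.1 * (x.1 ^ 3).re ^ 3
    set S := normSq x.1 ^ 6
    set r := ‖x.1‖
    have hr : 0 ≤ r := norm_nonneg _
    have h1 : t ^ 12 ≤ t ^ 10 := pow_le_pow_of_le_one ht0 ht1 (by norm_num)
    have h2 : t ^ 10 ≤ 1 := pow_le_one₀ ht0 ht1
    have h3 : t ^ 11 ≤ 1 := pow_le_one₀ ht0 ht1
    have h4 : 1 - t ^ 11 ≤ 2 * (1 - t ^ 10) := by
      have a1 : t ^ 9 ≤ 1 := pow_le_one₀ ht0 ht1
      have a2 : 0 ≤ t ^ 9 := by positivity
      nlinarith [mul_nonneg a2 (sq_nonneg (1 - t))]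
    have h5 : (1 - t ^ 10) * (16 * r ^ 10) ≤ (1 - t ^ 10) * A :=
      mul_le_mul_of_nonneg_left hA (by linarith)
    have h6 : (1 - t ^ 11) * (-(4 * r ^ 11)) ≤ (1 - t ^ 11) * R :=
      mul_le_mul_of_nonneg_left hR (by linarith)
    have h7 : (1 - t ^ 11) * (4 * r ^ 11) ≤ 2 * (1 - t ^ 10) * (4 * r ^ 11) :=
      mul_le_mul_of_nonneg_right h4 (by positivity)
    have h8 : (1 - t ^ 10) * r ^ 12 ≤ (1 - t ^ 12) * r ^ 12 :=
      mul_le_mul_of_nonneg_right (by linarith) (by positivity)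
    have h9 : 0 ≤ (1 - t ^ 10) * (r ^ 10 * (r - 4) ^ 2) :=
      mul_nonneg (by linarith) (by positivity)
    rw [hS] at hx ⊢
    nlinarith

theorem isBounded_dom : Bornology.IsBounded {x | rc x < 0} := by
  refine (isBounded_closedBall (x := (0 : ℂ × ℂ)) (r := 1)).subset (fun x hx => ?_)
  simp only [mem_ofPred_eq] at hx
  have h3 := (small_Dom hx.le).2
  have h1 := Qc_nonneg x.1
  rw [mem_closedBall_zero_iff, Prod.norm_def, max_le_iff]
  have h6 := neg_le_abs x.2.re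
  have h7 := abs_re_le_norm x.2
  unfold rc at hx
  rw [normSq_eq_norm_sq x.2] at hx
  exact ⟨h3, by nlinarith [norm_nonneg x.2]⟩

theorem rc_eq_zero_of_frontier {q : ℂ × ℂ} (hq : q ∈ frontier {x | rc x < 0}) : rc q = 0 :=
  frontier_lt_subset_eq continuous_rc continuous_const hq

theorem zero_mem_frontier_dom : (0 : ℂ × ℂ) ∈ frontier {x | rc x < 0} := by
  rw [(isOpen_lt continuous_rc continuous_const).frontier_eq]
  refine ⟨?_, by simp [rc, Qc_zero]⟩
  have ht : Tendsto (fun s : ℝ => ((0 : ℂ), -(s : ℂ))) (𝓝[>] 0) (𝓝 0) := by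
    have : Continuous (fun s : ℝ => ((0 : ℂ), -(s : ℂ))) := by fun_prop
    have h := this.tendsto 0
    simp only [ofReal_zero, neg_zero] at h
    exact h.mono_left nhdsWithin_le_nhds
  refine mem_closure_of_tendsto ht ?_
  filter_upwards [Ioo_mem_nhdsGT (zero_lt_one' ℝ)] with s hs
  simp only [rc, Qc_zero, normSq_neg, normSq_ofReal, neg_re, ofReal_re]
  nlinarith [hs.1, hs.2]

theorem fderiv_rc_ne_zero {q : ℂ × ℂ} (hq : rc q = 0) : fderiv ℝ rc q ≠ 0 := by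
  intro h0
  let γ : ℝ → ℂ × ℂ := fun t => ((t : ℂ) * q.1, -1 / 2 + (t : ℂ) ^ 5 * (q.2 + 1 / 2))
  have hγ1 : γ 1 = q := by ext <;> simp [γ]; ring
  have hγ : DifferentiableAt ℝ γ 1 := by
    have : Differentiable ℝ (fun t : ℝ => (t : ℂ)) := ofRealCLM.differentiable
    simp only [γ]
    fun_prop
  have h1 : HasFDerivAt rc (0 : ℂ × ℂ →L[ℝ] ℝ) (γ 1) := by
    rw [hγ1, ← h0]
    exact (contDiff_rc.differentiable (by simp) q).hasFDerivAt
  have h2 := h1.comp_hasDerivAt 1 hγ.hasDerivAt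
  obtain ⟨h5, h6⟩ := small_Dom hq.le
  rw [rc_split_Dom] at hq
  obtain ⟨-, hR, hS⟩ := bounds_Dom q
  have e : rc ∘ γ = _ := funext fun t => weighted_Dom q t
  set A := normSq (q.2 + 1 / 2) + 16 * normSq q.1 ^ 5 + 20 * normSq q.1 ^ 2 * (q.1 ^ 3).re ^ 2
  set R := 4 * normSq q.1 * (q.1 ^ 3).re ^ 3
  set S := normSq q.1 ^ 6
  have h3 : HasDerivAt (rc ∘ γ) (10 * A + 11 * R + 12 * S) 1 := by
    rw [e]
    have := (((((hasDerivAt_pow 10 (1 : ℝ)).mul_const A)).add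
      ((hasDerivAt_pow 11 (1 : ℝ)).mul_const R)).add
      ((hasDerivAt_pow 12 (1 : ℝ)).mul_const S)).sub_const (1 / 4)
    exact this.congr_deriv (by norm_num)
  have h4 := h2.unique h3
  have h7 : ‖q.1‖ ^ 11 ≤ ‖q.1‖ ^ 10 := pow_le_pow_of_le_one (norm_nonneg _) h6 (by norm_num)
  have h8 : 0 ≤ ‖q.1‖ ^ 12 := by positivity
  simp only [zero_apply] at h4
  linarith

theorem lap_rc_Dom {Z W : ℂ → ℂ} {t : ℂ} (hZ : AnalyticAt ℂ Z t) (hW : AnalyticAt ℂ W t) :
    ∃ l, 400 * normSq (Z t) ^ 4 * normSq (deriv Z t) + 4 * normSq (deriv W t) ≤ l ∧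
      Lap (fun s => rc (Z s, W s)) t l := by
  obtain ⟨l, hl, h3⟩ := lap_Qc hZ
  exact ⟨_, by linarith, (((lap_re hW).add (lap_normSq hW)).add h3).congr (fun s => rfl) rfl⟩

theorem levi_rc (q v : ℂ × ℂ) :
    400 * normSq q.1 ^ 4 * normSq v.1 + 4 * normSq v.2 ≤
      iteratedFDeriv ℝ 2 rc q ![v, v] + iteratedFDeriv ℝ 2 rc q ![I • v, I • v] := by
  have h2 : ContDiff ℝ 2 rc := mod_cast contDiff_infty.mp contDiff_rc 2
  have t := (tendsto_second_diff h2 q v).add (tendsto_second_diff h2 q (I • v))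
  obtain ⟨l, hl, hlap⟩ := lap_rc_Dom (Z := fun t => q.1 + t * v.1) (W := fun t => q.2 + t * v.2)
    (t := 0) (by fun_prop) (by fun_prop)
  have d1 : ∀ a b : ℂ, deriv (fun t => a + t * b) 0 = b := fun a b => by
    simp
  simp only [d1, zero_mul, add_zero] at hl
  unfold Lap at hlap
  rw [tendsto_nhds_unique t (hlap.congr (fun s => ?_))]
  · exact hl
  · have e1 : q + s • v = (q.1 + (0 + (s : ℂ)) * v.1, q.2 + (0 + (s : ℂ)) * v.2) := by
      ext <;> simp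
    have e2 : q + (-s) • v = (q.1 + (0 - (s : ℂ)) * v.1, q.2 + (0 - (s : ℂ)) * v.2) := by
      ext <;> simp
    have e3 : q + s • (I • v) =
        (q.1 + (0 + I * (s : ℂ)) * v.1, q.2 + (0 + I * (s : ℂ)) * v.2) := by
      ext <;> simp <;> ring
    have e4 : q + (-s) • (I • v) =
        (q.1 + (0 - I * (s : ℂ)) * v.1, q.2 + (0 - I * (s : ℂ)) * v.2) := by
      ext <;> simp <;> ring
    rw [e1, e2, e3, e4]
    simp only [zero_mul, add_zero, Prod.mk.eta]
    ring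

theorem order_contact_rc {q : ℂ × ℂ} (hq : rc q = 0) {γ : ℂ → ℂ × ℂ} (hγ : AnalyticAt ℂ γ 0)
    (hγ0 : γ 0 = q) {ν N : ℕ} (hν : analyticOrderAt (fun t => γ t - q) 0 = ν)
    (hN : (fun t => rc (γ t)) =O[𝓝 0] fun t => ‖t‖ ^ N) : N ≤ 10 * ν := by
  have hp5 : ∀ z : ℂ, normSq z ^ 5 = ‖z‖ ^ 10 := fun z => by rw [normSq_eq_norm_sq]; ring
  by_contra hlt
  push Not at hlt
  obtain ⟨g, hg, hg0, he⟩ := (hγ.sub (analyticAt_const (v := q))).analyticOrderAt_eq_natCast.mp hν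
  have hgpos : 0 < ‖g 0‖ := norm_pos_iff.mpr hg0
  set c := (‖g 0‖ / 2) ^ 10 / 25 with hc
  have hc0 : 0 < c := by positivity
  have h1 := (hN.trans_isLittleO (isLittleO_norm_pow_norm_pow hlt)).bound (c := c / 2)
    (by positivity)
  have h2 : ∀ᶠ t in 𝓝 (0 : ℂ), ‖g 0‖ / 2 < ‖g t‖ :=
    hg.continuousAt.norm.eventually_const_lt (by linarith)
  have h3 : ∀ᶠ t in 𝓝 (0 : ℂ), ‖(γ t).1 - q.1‖ ≤ ‖(γ t).1‖ := by
    rcases eq_or_ne q.1 0 with h | h
    · exact Eventually.of_forall fun t => by simp [h]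
    · have a1 : ContinuousAt (fun t => ‖(γ t).1 - q.1‖) 0 := by
        have := hγ.continuousAt; fun_prop
      have a2 : ContinuousAt (fun t => ‖(γ t).1‖) 0 := by
        have := hγ.continuousAt; fun_prop
      exact (a1.eventually_lt a2 (by simpa [hγ0] using h)).mono fun t ht => ht.le
  have h4 : ∀ᶠ t in 𝓝 (0 : ℂ), ‖(γ t).2 - q.2‖ ≤ 1 := by
    have a1 : ContinuousAt (fun t => ‖(γ t).2 - q.2‖) 0 := by
      have := hγ.continuousAt; fun_prop
    exact a1.eventually_le_const (by simp [hγ0])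
  obtain ⟨r0, hr0, hball⟩ := Metric.eventually_nhds_iff_ball.mp
    (h1.and (h2.and (h3.and (h4.and (he.and hγ.eventually_analyticAt)))))
  set r := r0 / 2
  have hr : 0 < r := by positivity
  have hsub : ∀ t ∈ closedBall (0 : ℂ) r, t ∈ ball (0 : ℂ) r0 :=
    fun t ht => closedBall_subset_ball (by simp only [r]; linarith) ht
  have hZ : ∀ t ∈ closedBall (0 : ℂ) r, AnalyticAt ℂ (fun t => (γ t).1) t := fun t ht =>
    analyticAt_fst.comp (hball t (hsub t ht)).2.2.2.2.2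
  have hW : ∀ t ∈ closedBall (0 : ℂ) r, AnalyticAt ℂ (fun t => (γ t).2) t := fun t ht =>
    analyticAt_snd.comp (hball t (hsub t ht)).2.2.2.2.2
  let u : ℂ → ℝ := fun t => rc ((γ t).1, (γ t).2) - 1 / 25 * normSq (((γ t).1 - q.1) ^ 5) -
    1 / 25 * normSq (((γ t).2 - q.2) ^ 5)
  have hmax := max_principle (isCompact_closedBall (0 : ℂ) r) (u := u)
    (fun t ht => by
      have a1 := (hZ t ht).continuousAt
      have a2 := (hW t ht).continuousAt
      have a3 := continuous_rc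
      refine ContinuousAt.continuousWithinAt ?_
      simp only [u]
      fun_prop) (B := -(c / 2 * r ^ (10 * ν))) (by
      intro t ht
      obtain ⟨b1, b2, b3, b4, b5, -⟩ := hball t (hsub t ht)
      rcases (mem_closedBall_zero_iff.mp ht).eq_or_lt with he | hlt
      · left
        rw [Real.norm_of_nonneg (r := ‖t‖ ^ (10 * ν)) (by positivity), he] at b1
        have b6 : r ^ ν * (‖g 0‖ / 2) ≤ ‖γ t - q‖ := by
          have b5' : γ t - q = (t - 0) ^ ν • g t := b5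
          rw [b5', norm_smul, sub_zero, norm_pow, he]
          gcongr
        have b7 := pow_le_pow_left₀ (by positivity) b6 10
        have b8 : ‖γ t - q‖ ^ 10 ≤ ‖(γ t).1 - q.1‖ ^ 10 + ‖(γ t).2 - q.2‖ ^ 10 := by
          rw [Prod.norm_def, Prod.fst_sub, Prod.snd_sub]
          rcases max_choice ‖(γ t).1 - q.1‖ ‖(γ t).2 - q.2‖ with h | h <;> rw [h] <;>
            simp only [le_add_iff_nonneg_left, le_add_iff_nonneg_right] <;> positivity
        have b9 : (r ^ ν * (‖g 0‖ / 2)) ^ 10 = 25 * c * r ^ (10 * ν) := by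
          rw [hc]; ring
        simp only [u, map_pow, hp5, Prod.mk.eta]
        linarith [le_abs_self (rc (γ t)), Real.norm_eq_abs (rc (γ t))]
      · right
        refine ⟨closedBall_mem_nhds_of_mem (mem_ball_zero_iff.mpr hlt), ?_⟩
        obtain ⟨l, hl, hlap⟩ := lap_rc_Dom (hZ t ht) (hW t ht)
        have a1 : AnalyticAt ℂ (fun t => (γ t).1 - q.1) t := (hZ t ht).sub analyticAt_const
        have a2 : AnalyticAt ℂ (fun t => (γ t).2 - q.2) t := (hW t ht).sub analyticAt_const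
        refine ⟨_, ?_, (hlap.sub ((lap_normSq (a1.fun_pow 5)).const_mul (1 / 25))).sub
          ((lap_normSq (a2.fun_pow 5)).const_mul (1 / 25))⟩
        rw [deriv_fun_pow a1.differentiableAt, deriv_fun_pow a2.differentiableAt, deriv_sub_const,
          deriv_sub_const]
        simp only [map_mul, map_pow, normSq_natCast]
        have c1 := normSq_nonneg (deriv (fun t => (γ t).1) t)
        have c2 := normSq_nonneg (deriv (fun t => (γ t).2) t)
        have c3 : normSq ((γ t).1 - q.1) ^ 4 ≤ normSq ((γ t).1) ^ 4 := by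
          refine pow_le_pow_left₀ (normSq_nonneg _) ?_ 4
          rw [normSq_eq_norm_sq, normSq_eq_norm_sq]
          exact pow_le_pow_left₀ (norm_nonneg _) b3 2
        have c4 : normSq ((γ t).2 - q.2) ^ 4 ≤ 1 := by
          refine pow_le_one₀ (normSq_nonneg _) ?_
          rw [normSq_eq_norm_sq]
          exact pow_le_one₀ (norm_nonneg _) b4
        have c5 := mul_le_mul_of_nonneg_right c3 c1
        have c6 := mul_le_mul_of_nonneg_right c4 c2
        have c7 : 0 ≤ normSq ((γ t).1) ^ 4 * normSq (deriv (fun t => (γ t).1) t) := by positivity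
        norm_num
        linarith) 0 (mem_closedBall_self hr.le)
  simp only [u, hγ0, Prod.mk.eta, hq, sub_self] at hmax
  have : 0 < c / 2 * r ^ (10 * ν) := by positivity
  norm_num at hmax
  linarith

end Pool.Agent.Lib.MP_08f711_an.CM
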