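import Pool.Agent.Lib.MP_08f711_an.CM.QDef
import Pool.Agent.Lib.MP_08f711_an.Holo

/-!
The midpoint map and its second derivative along the first variable.
-/

open Complex Filter Topology Set Metric Asymptotics

namespace Pool.Agent.Lib.MP_08f711_an.CM

theorem taylor_bound {g : ℂ → ℂ} {ρ M : ℝ} (hρ : 0 < ρ) (hg : DifferentiableOn ℂ g (ball 0 ρ))
    (hM : ∀ t ∈ ball (0 : ℂ) ρ, ‖g t‖ ≤ M) (n : ℕ) :
    ∃ a : ℕ → ℂ, (∀ j, ‖a j‖ ≤ M * (2 / ρ) ^ j) ∧ ∀ t : ℂ, ‖t‖ < ρ / 2 →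
      ‖g t - ∑ j ∈ Finset.range (n + 1), a j * t ^ j‖ ≤ (n + 2) * M * (2 * ‖t‖ / ρ) ^ (n + 1) := by
  have M0 : 0 ≤ M := (norm_nonneg _).trans (hM 0 (mem_ball_self hρ))
  have h2 : 0 < ρ / 2 := by positivity
  have hsub : closedBall (0 : ℂ) (ρ / 2) ⊆ ball 0 ρ := closedBall_subset_ball (by linarith)
  have ha : ∀ j, ‖iteratedDeriv j g 0 / j.factorial‖ ≤ M * (2 / ρ) ^ j := fun j => by
    have := norm_iteratedDeriv_le_of_forall_mem_sphere_norm_le j h2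
      (hg.diffContOnCl_ball hsub) fun z hz => hM z (hsub (sphere_subset_closedBall hz))
    rw [norm_div, Complex.norm_natCast, div_le_iff₀ (by positivity)]
    refine this.trans_eq ?_
    rw [div_pow, div_pow]
    field_simp
  refine ⟨fun j => iteratedDeriv j g 0 / j.factorial, ha, fun t ht => ?_⟩
  obtain ⟨F, hF, hf⟩ := (hg.analyticAt (ball_mem_nhds 0 hρ)).exists_eq_sum_add_pow_mul (n + 1)
  set r : ℂ → ℂ := fun t => g t - ∑ j ∈ Finset.range (n + 1),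
    iteratedDeriv j g 0 / j.factorial * t ^ j with hr
  have e : ∀ t, r t = t ^ (n + 1) * F t := fun t => by
    rw [hr, sub_eq_iff_eq_add', hf t]
    simp only [smul_eq_mul]
    congr 1
    exact Finset.sum_congr rfl fun j _ => by ring
  have r0 : r 0 = 0 := by simp [e]
  have := dist_le_mul_div_pow_of_mapsTo_ball_of_isLittleO (f := r) (c := 0) (R₁ := ρ / 2)
    (R₂ := (n + 2) * M) (n := n) (z := t)
    ((hg.mono (ball_subset_ball (by linarith))).sub (by fun_prop)) (fun z hz => ?_) ?_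
    (mem_ball_zero_iff.2 ht)
  · rw [r0, dist_zero_right, dist_zero_right] at this
    refine this.trans_eq ?_
    congr 2
    field_simp
  · rw [r0, mem_closedBall_zero_iff]
    have h3 := Finset.sum_le_card_nsmul (Finset.range (n + 1))
      (fun j => ‖iteratedDeriv j g 0 / j.factorial * z ^ j‖) M fun j _ => by
        rw [norm_mul, norm_pow]
        refine (mul_le_mul (ha j) (pow_le_pow_left₀ (norm_nonneg _)
          (mem_ball_zero_iff.1 hz).le j) (by positivity) (by positivity)).trans_eq ?_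
        rw [mul_assoc, ← mul_pow, show 2 / ρ * (ρ / 2) = 1 by field_simp, one_pow, mul_one]
    rw [Finset.card_range, nsmul_eq_mul] at h3
    push_cast at h3
    linarith [norm_sub_le (g z) _ |>.trans (add_le_add (hM z (hsub (ball_subset_closedBall hz)))
      ((norm_sum_le _ _).trans h3))]
  · simp only [r0, sub_zero, e, pow_succ, mul_assoc]
    have h4 : Tendsto (fun w : ℂ => w * F w) (𝓝 0) (𝓝 0) := by
      simpa using tendsto_id.mul hF.continuousAt.tendsto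
    simpa using ((isBigO_refl (fun w : ℂ => w ^ n) (𝓝 0)).mul_isLittleO
      ((isLittleO_one_iff ℂ).2 h4)).norm_right

/-- The triples `(ζ, u, l)` such that both points `(ζ ± l, (exp u - 1) / 2)` lie in the domain. -/
def Vset (R : ℝ) : Set (ℂ × ℂ × ℂ) :=
  {x | ‖x‖ < R ∧ Real.exp (2 * x.2.1.re) + 4 * Qc (x.1 + x.2.2) < 1 ∧
    Real.exp (2 * x.2.1.re) + 4 * Qc (x.1 - x.2.2) < 1}

/-- The properties of the midpoint map that are used. -/
structure Setup (R : ℝ) (M : ℂ × ℂ × ℂ → ℂ × ℂ) : Prop where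
  pos : 0 < R
  small : R ≤ 1 / 4
  diff : DifferentiableOn ℂ M (Vset R)
  mem : ∀ x ∈ Vset R, normSq (M x).2 + 4 * Qc (M x).1 ≤ 1
  even : ∀ ζ u l : ℂ, M (ζ, u, -l) = M (ζ, u, l)
  idem : ∀ ζ u : ℂ, (ζ, u, 0) ∈ Vset R → M (ζ, u, 0) = (ζ, exp u)

theorem isOpen_Vset (R : ℝ) : IsOpen (Vset R) := by
  have c := continuous_Qc
  have c1 : Continuous fun x : ℂ × ℂ × ℂ => Real.exp (2 * x.2.1.re) + 4 * Qc (x.1 + x.2.2) := by
    fun_prop
  have c2 : Continuous fun x : ℂ × ℂ × ℂ => Real.exp (2 * x.2.1.re) + 4 * Qc (x.1 - x.2.2) := by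
    fun_prop
  exact (isOpen_lt continuous_norm continuous_const).inter
    ((isOpen_lt c1 continuous_const).inter (isOpen_lt c2 continuous_const))

theorem deriv_even_Gamma {f : ℂ → ℂ × ℂ} (h : ∀ l, f (-l) = f l) : deriv f 0 = 0 := by
  have e := deriv_comp_neg f 0
  simp only [h, neg_zero] at e
  exact self_eq_neg.1 e

theorem Setup.dev {R : ℝ} {M : ℂ × ℂ × ℂ → ℂ × ℂ} (h : Setup R M) {ζ u l : ℂ} {ρ : ℝ}
    (hV : ∀ s ∈ ball (0 : ℂ) ρ, (ζ, u, s) ∈ Vset R) (hl : l ∈ ball (0 : ℂ) ρ) :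
    ‖M (ζ, u, l) - (ζ, exp u)‖ ≤ 4 * (‖l‖ / ρ) ^ 2 := by
  have hρ : 0 < ρ := pos_of_mem_ball hl
  have hd : DifferentiableOn ℂ (fun s : ℂ => M (ζ, u, s)) (ball 0 ρ) :=
    h.diff.comp (by fun_prop) hV
  have := second_order_bound (M := 1) hρ hd (fun s hs => ?_) hl
  · rwa [sub_zero, fderiv_eq_smul_deriv, deriv_even_Gamma (h.even ζ u), smul_zero, sub_zero,
      mul_one, h.idem ζ u (hV 0 (mem_ball_self hρ))] at this
  · have h1 := h.mem _ (hV s hs)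
    have h2 := Qc_lower (M (ζ, u, s)).1
    have h3 := normSq_nonneg (M (ζ, u, s)).2
    have h4 : 0 ≤ ‖(M (ζ, u, s)).1‖ ^ 10 := by positivity
    rw [normSq_eq_norm_sq] at h1 h3
    exact max_le ((pow_le_one_iff_of_nonneg (norm_nonneg _) (by norm_num : 10 ≠ 0)).1 (by linarith))
      ((pow_le_one_iff_of_nonneg (norm_nonneg _) two_ne_zero).1 (by linarith))

/-- `g` is the coefficient of `l ^ 2` in `M (ζ, u, l)`. -/
def Coef (M : ℂ × ℂ × ℂ → ℂ × ℂ) (ζ u : ℂ) (g : ℂ × ℂ) : Prop :=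
  Tendsto (fun l : ℂ => (l ^ 2)⁻¹ • (M (ζ, u, l) - (ζ, exp u))) (𝓝[≠] 0) (𝓝 g)

theorem Setup.exists_gamma {R : ℝ} {M : ℂ × ℂ × ℂ → ℂ × ℂ} (h : Setup R M) :
    ∃ Γ : ℂ × ℂ → ℂ × ℂ, DifferentiableOn ℂ Γ {c | (c.1, c.2, 0) ∈ Vset R} ∧
      ∀ ζ u : ℂ, (ζ, u, 0) ∈ Vset R → Coef M ζ u (Γ (ζ, u)) := by
  have o := isOpen_Vset R
  have d1 := differentiableOn_fderiv_apply o h.diff (0, 0, 1)
  have d2 := differentiableOn_fderiv_apply o d1 (0, 0, 1)
  have d3 : DifferentiableOn ℂ (fun c : ℂ × ℂ => fderiv ℂ (fun x => fderiv ℂ M x (0, 0, 1))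
      (c.1, c.2, 0) (0, 0, 1)) {c | (c.1, c.2, 0) ∈ Vset R} :=
    d2.comp (f := fun c : ℂ × ℂ => (c.1, c.2, (0 : ℂ))) (by fun_prop) fun c hc => hc
  refine ⟨fun c => (1 / 2 : ℂ) • fderiv ℂ (fun x => fderiv ℂ M x (0, 0, 1)) (c.1, c.2, 0) (0, 0, 1),
    d3.const_smul (1 / 2 : ℂ), fun ζ u hc => ?_⟩
  have hi : ∀ s : ℂ, HasDerivAt (fun s : ℂ => (ζ, u, s)) (0, 0, 1) s := fun s =>
    (hasDerivAt_const s ζ).prodMk ((hasDerivAt_const s u).prodMk (hasDerivAt_id s))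
  have key : ∀ {N : ℂ × ℂ × ℂ → ℂ × ℂ}, DifferentiableOn ℂ N (Vset R) → ∀ s, (ζ, u, s) ∈ Vset R →
      HasDerivAt (fun s : ℂ => N (ζ, u, s)) (fderiv ℂ N (ζ, u, s) (0, 0, 1)) s := fun hN s hs =>
    (hN.differentiableAt (o.mem_nhds hs)).hasFDerivAt.comp_hasDerivAt s (hi s)
  have hn : ∀ᶠ s in 𝓝 (0 : ℂ), (ζ, u, s) ∈ Vset R :=
    (hi 0).continuousAt.eventually_mem (o.mem_nhds hc)
  have an : AnalyticAt ℂ (fun s : ℂ => M (ζ, u, s)) 0 :=
    analyticAt_iff_eventually_differentiableAt.2 (hn.mono fun s hs => (key h.diff s hs).differentiableAt)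
  obtain ⟨F, hF, hf⟩ := an.exists_eq_sum_add_pow_mul 3
  have e2 : iteratedDeriv 2 (fun s : ℂ => M (ζ, u, s)) 0 =
      fderiv ℂ (fun x => fderiv ℂ M x (0, 0, 1)) (ζ, u, 0) (0, 0, 1) := by
    rw [iteratedDeriv_succ, iteratedDeriv_one, ← (key d1 0 hc).deriv]
    exact EventuallyEq.deriv_eq (hn.mono fun s hs => (key h.diff s hs).deriv)
  have h4 : Tendsto (fun w : ℂ => w • F w) (𝓝 0) (𝓝 0) := by
    simpa using tendsto_id.smul hF.continuousAt.tendsto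
  have h5 := (h4.const_add ((1 / 2 : ℂ) • fderiv ℂ (fun x => fderiv ℂ M x (0, 0, 1)) (ζ, u, 0)
    (0, 0, 1))).mono_left (nhdsWithin_le_nhds (s := {0}ᶜ))
  rw [add_zero] at h5
  refine h5.congr' (eventually_nhdsWithin_of_forall fun l (hl : l ≠ 0) => ?_)
  simp only [hf l, Finset.sum_range_succ, Finset.sum_range_zero, e2, iteratedDeriv_one,
    iteratedDeriv_zero, deriv_even_Gamma (f := fun s => M (ζ, u, s)) (h.even ζ u), h.idem ζ u hc]
  simp only [pow_zero, Nat.factorial_zero, Nat.cast_one, div_one, one_smul, zero_add, smul_zero,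
    add_zero, add_assoc, add_sub_cancel_left, smul_add, smul_smul]
  congr 2
  · field_simp
    norm_num [Nat.factorial]
  · field_simp

theorem Setup.coef_le {R : ℝ} {M : ℂ × ℂ × ℂ → ℂ × ℂ} (h : Setup R M) {ζ u : ℂ} {ρ : ℝ}
    (hρ : 0 < ρ) (hV : ∀ s ∈ ball (0 : ℂ) ρ, (ζ, u, s) ∈ Vset R) {g : ℂ × ℂ} (hg : Coef M ζ u g) :
    ‖g‖ ≤ 4 / ρ ^ 2 := by
  refine le_of_tendsto hg.norm ?_
  filter_upwards [self_mem_nhdsWithin, nhdsWithin_le_nhds (ball_mem_nhds 0 hρ)] with l h0 hl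
  have h1 : 0 < ‖l‖ := norm_pos_iff.2 h0
  rw [norm_smul, norm_inv, norm_pow, inv_mul_le_iff₀ (by positivity)]
  refine (h.dev hV hl).trans_eq ?_
  field_simp

end Pool.Agent.Lib.MP_08f711_an.CM
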