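import Pool.Agent.Lib.MP_08f711_an.CM.Barrier
import Pool.Agent.Lib.MP_08f711_an.CM.Gamma

/-!
The infinitesimal convexity inequality.
-/

open Complex Filter Topology Set Metric Asymptotics

namespace Pool.Agent.Lib.MP_08f711_an.CM

theorem Setup.analytic_comp {R : ℝ} {M : ℂ × ℂ × ℂ → ℂ × ℂ} (h : Setup R M)
    {γ : ℂ → ℂ × ℂ × ℂ} (hγ : Differentiable ℂ γ) {v : ℂ} (hv : γ v ∈ Vset R) :
    AnalyticAt ℂ (fun s => M (γ s)) v := by
  have ho : IsOpen (γ ⁻¹' Vset R) := (isOpen_Vset R).preimage hγ.continuous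
  exact (h.diff.comp hγ.differentiableOn (mapsTo_preimage γ _)).analyticAt (ho.mem_nhds hv)

theorem exp_neg_two_le {a : ℝ} (h0 : 0 ≤ a) (h1 : a ≤ 1 / 2) : Real.exp (-(2 * a)) ≤ 1 - a := by
  have h2 := Real.add_one_le_exp (2 * a)
  rw [Real.exp_neg, inv_le_comm₀ (Real.exp_pos _) (by linarith), inv_eq_one_div,
    div_le_iff₀ (by linarith)]
  nlinarith

theorem norm_triple_lt {R : ℝ} {a b c : ℂ} (ha : ‖a‖ < R) (hb : ‖b‖ < R) (hc : ‖c‖ < R) :
    ‖(a, b, c)‖ < R := by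
  simp only [Prod.norm_def, max_lt_iff]
  exact ⟨ha, hb, hc⟩

theorem Qc_small {z : ℂ} (hz : ‖z‖ ≤ 1 / 2) : Qc z ≤ 1 / 16 := by
  have h1 := Qc_upper (z := z) (by linarith)
  have h2 : ‖z‖ ^ 10 ≤ (1 / 2) ^ 10 := by gcongr
  norm_num at h2
  linarith

theorem Setup.deep {R : ℝ} {M : ℂ × ℂ × ℂ → ℂ × ℂ} (h : Setup R M) {z U l : ℂ} {τ q a : ℝ}
    (hz : ‖z‖ < R) (hU : ‖U‖ < R) (hl : ‖l‖ = τ) (hτ0 : 0 < τ) (hτ : τ ≤ 1 / 32)
    (hq : Qc z ≤ q + τ ^ 2) (hq1 : 1 / 2 ≤ 1 - 4 * q) (ha : 64 * τ < a) (haR : a ≤ R / 8)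
    (he : Real.exp (2 * U.re) = (1 - 4 * q) * Real.exp (-(2 * a))) :
    normSq (M (z, U, l)).2 * Real.exp (2 * a) ≤
      (1 - 4 * Qc (M (z, U, l)).1) * Real.exp (20000 * τ ^ 2 / a ^ 2) := by
  have hR := h.small
  have ha0 : 0 < a := by linarith
  have hV : ∀ s ∈ ball (0 : ℂ) (a / 16), (z, U, s) ∈ Vset R := by
    intro s hs
    rw [mem_ball_zero_iff] at hs
    have e1 := exp_neg_two_le ha0.le (by linarith)
    have key : ∀ s' : ℂ, ‖s'‖ < a / 16 → Real.exp (2 * U.re) + 4 * Qc (z + s') < 1 := by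
      intro s' hs'
      have l1 := Qc_lip (z := z) (z' := z + s') (by linarith)
        ((norm_add_le _ _).trans (by linarith))
      rw [add_sub_cancel_left] at l1
      have l2 := (abs_le.1 l1).2
      rw [he]
      nlinarith [mul_le_mul_of_nonneg_left e1 (show 0 ≤ 1 - 4 * q by linarith)]
    refine ⟨norm_triple_lt hz hU (by linarith), key s hs, ?_⟩
    have := key (-s) (by rwa [norm_neg])
    rwa [← sub_eq_add_neg] at this
  have hd := h.dev hV (l := l) (by rw [mem_ball_zero_iff, hl]; linarith)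
  set e := 1024 * τ ^ 2 / a ^ 2 with hedef
  have he0 : 0 ≤ e := by positivity
  have he1 : e ≤ 1 / 4 := by
    rw [hedef, div_le_iff₀ (by positivity)]
    nlinarith
  have hd' : ‖M (z, U, l) - (z, exp U)‖ ≤ e := by
    refine hd.trans_eq ?_
    rw [hl, hedef]
    field_simp
    norm_num
  set m := M (z, U, l)
  have d1 : ‖m.1 - z‖ ≤ e := (norm_fst_le (m - (z, exp U))).trans hd'
  have d2 : ‖m.2 - exp U‖ ≤ e := (norm_snd_le (m - (z, exp U))).trans hd'
  have m1 : ‖m.1‖ ≤ 1 / 2 := by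
    have := norm_add_le (m.1 - z) z
    rw [sub_add_cancel] at this
    linarith
  have l1 := (abs_le.1 (Qc_lip (z := z) (z' := m.1) (by linarith) m1)).2
  have l2 := Qc_small m1
  have u1 : 1 / 2 ≤ Real.exp U.re := by
    have := Real.add_one_le_exp U.re
    have := (abs_le.1 (abs_re_le_norm U)).1
    linarith
  have m2 : ‖m.2‖ ≤ Real.exp U.re * Real.exp (2 * e) := by
    have a1 := norm_add_le (m.2 - exp U) (exp U)
    rw [sub_add_cancel, norm_exp] at a1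
    have a2 := Real.add_one_le_exp (2 * e)
    nlinarith
  have m3 : normSq m.2 * Real.exp (2 * a) ≤ (1 - 4 * q) * Real.exp (4 * e) := by
    have a1 : normSq m.2 ≤ (Real.exp U.re * Real.exp (2 * e)) ^ 2 := by
      rw [normSq_eq_norm_sq]
      gcongr
    have a2 : (Real.exp U.re * Real.exp (2 * e)) ^ 2 * Real.exp (2 * a) =
        (1 - 4 * q) * Real.exp (4 * e) := by
      have b1 : Real.exp U.re ^ 2 = Real.exp (2 * U.re) := by
        rw [← Real.exp_nat_mul]; norm_num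
      have b2 : Real.exp (2 * e) ^ 2 = Real.exp (4 * e) := by
        rw [← Real.exp_nat_mul]; congr 1; push_cast; ring
      have b3 : Real.exp (-(2 * a)) * Real.exp (2 * a) = 1 := by
        rw [← Real.exp_add]; simp
      rw [mul_pow, b1, b2, he]
      linear_combination (1 - 4 * q) * Real.exp (4 * e) * b3
    rw [← a2]
    gcongr
  have m4 : 1 - 4 * q ≤ (1 - 4 * Qc m.1) * Real.exp (8 * e + 8 * τ ^ 2) := by
    have a2 := Real.add_one_le_exp (8 * e + 8 * τ ^ 2)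
    have a3 : 0 ≤ τ ^ 2 := by positivity
    nlinarith
  have m5 : 8 * e + 8 * τ ^ 2 + 4 * e ≤ 20000 * τ ^ 2 / a ^ 2 := by
    have a1 : τ ^ 2 ≤ τ ^ 2 / a ^ 2 := by
      rw [le_div_iff₀ (by positivity)]
      have : a ^ 2 ≤ 1 := by nlinarith
      nlinarith [sq_nonneg τ]
    have a2 : e = 1024 * (τ ^ 2 / a ^ 2) := by rw [hedef]; ring
    have a3 : 20000 * τ ^ 2 / a ^ 2 = 20000 * (τ ^ 2 / a ^ 2) := by ring
    have a4 : 0 ≤ τ ^ 2 / a ^ 2 := by positivity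
    linarith
  calc normSq m.2 * Real.exp (2 * a) ≤ (1 - 4 * q) * Real.exp (4 * e) := m3
    _ ≤ (1 - 4 * Qc m.1) * Real.exp (8 * e + 8 * τ ^ 2) * Real.exp (4 * e) := by gcongr
    _ = (1 - 4 * Qc m.1) * Real.exp (8 * e + 8 * τ ^ 2 + 4 * e) := by
      rw [Real.exp_add (8 * e + 8 * τ ^ 2), mul_assoc]
    _ ≤ _ := by
      have : 0 ≤ 1 - 4 * Qc m.1 := by linarith
      gcongr

theorem Setup.ineq_tau {R : ℝ} {M : ℂ × ℂ × ℂ → ℂ × ℂ} (h : Setup R M) {z u l : ℂ} {τ q y : ℝ}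
    (hz : ‖z‖ < R) (hl : ‖l‖ = τ) (hτ0 : 0 < τ) (hτ : τ ≤ 1 / 32) (hτR : τ < R)
    (hq : Qc z ≤ q + τ ^ 2) (hq1 : 1 / 2 ≤ 1 - 4 * q) (hq2 : Qc (z + l) ≤ q) (hq3 : Qc (z - l) ≤ q)
    (he : Real.exp (2 * (u.re + y)) = 1 - 4 * q) (hy0 : τ ^ 3 ≤ y) (hy1 : y ≤ R / 8)
    (hu0 : u.re ≤ 0) (hu1 : -u.re ≤ R / 16) (him : |u.im| ≤ R / 4) :
    normSq (M (z, u, l)).2 * Real.exp (2 * y) ≤ (1 - 4 * Qc (M (z, u, l)).1) *
      Real.exp (2 * τ ^ 3 + 8 * (20000 * τ ^ 2) * y / (R / 8) ^ 3) := by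
  have hR := h.pos
  have hτ3 : 0 < τ ^ 3 := by positivity
  let γ : ℂ → ℂ × ℂ × ℂ := fun v => (z, u + y + v, l)
  have hγ : Differentiable ℂ γ := by simp only [γ]; fun_prop
  have hU : ∀ v ∈ Tri (τ ^ 3) (R / 8), ‖u + y + v‖ < R := by
    intro v hv
    refine (norm_le_abs_re_add_abs_im _).trans_lt ?_
    have a1 : |(u + y + v).re| ≤ R / 4 := by
      simp only [add_re, ofReal_re]
      rw [abs_le]
      constructor <;> linarith [hv.1, hv.2, abs_nonneg v.im]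
    have a2 : |(u + y + v).im| ≤ R / 4 + R / 8 := by
      simp only [add_im, ofReal_im, add_zero]
      refine (abs_add_le _ _).trans ?_
      linarith [hv.1, hv.2]
    linarith
  have hE : ∀ v : ℂ, Real.exp (2 * (u + y + v).re) = (1 - 4 * q) * Real.exp (-(2 * -v.re)) := by
    intro v
    rw [← he, ← Real.exp_add]
    congr 1
    simp only [add_re, ofReal_re]
    ring
  have hV : ∀ v ∈ Tri (τ ^ 3) (R / 8), γ v ∈ Vset R := by
    intro v hv
    have a1 : Real.exp (-(2 * -v.re)) < 1 := by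
      rw [Real.exp_lt_one_iff]
      linarith [hv.1]
    refine ⟨norm_triple_lt hz (hU v hv) (by rwa [hl]), ?_, ?_⟩ <;>
    · simp only [γ, hE]
      nlinarith
  have hN : ∀ v : ℂ, normSq ((M (γ v)).2 * exp (-v)) =
      normSq (M (γ v)).2 * Real.exp (2 * -v.re) := by
    intro v
    rw [map_mul, normSq_eq_norm_sq (exp (-v)), norm_exp, ← Real.exp_nat_mul]
    simp
  have hT : ∀ v ∈ Tri (τ ^ 3) (R / 8), ∀ B : ℝ, 2 * -v.re ≤ B →
      normSq ((M (γ v)).2 * exp (-v)) ≤ (1 - 4 * Qc (M (γ v)).1) * Real.exp B := by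
    intro v hv B hB
    have a1 := h.mem _ (hV v hv)
    have a2 := normSq_nonneg (M (γ v)).2
    rw [hN]
    gcongr
    · linarith
    · linarith
  have := barrier (F := fun v => (M (γ v)).2 * exp (-v)) (Z := fun v => (M (γ v)).1)
    (δ := τ ^ 3) (X := R / 8) (A := 2 * τ ^ 3) (D := 20000 * τ ^ 2) (y := y) hτ3 (by positivity)
    (fun v hv => (analyticAt_snd.comp (h.analytic_comp hγ (hV v hv))).mul (by fun_prop))
    (fun v hv => analyticAt_fst.comp (h.analytic_comp hγ (hV v hv)))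
    (fun v hv e => hT v hv _ (by rw [e])) (fun v hv => ?_) hy0 hy1
  · rw [hN] at this
    simpa [γ] using this
  · have ha0 : 0 < -v.re := hτ3.trans_le hv.1
    have e : v.re ^ 2 = (-v.re) ^ 2 := by ring
    rw [e]
    rcases le_or_gt (-v.re) (64 * τ) with ha | ha
    · refine hT v hv _ ?_
      have : 2 * -v.re ≤ 20000 * τ ^ 2 / (-v.re) ^ 2 := by
        rw [le_div_iff₀ (by positivity)]
        have a1 : (-v.re) ^ 3 ≤ (64 * τ) ^ 3 := by gcongr
        nlinarith [sq_nonneg τ]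
      linarith
    · rw [hN]
      have a1 := h.mem _ (hV v hv)
      have a2 := normSq_nonneg (M (γ v)).2
      refine (h.deep hz (hU v hv) hl hτ0 hτ hq hq1 ha (by linarith [hv.2, abs_nonneg v.im])
        (hE v)).trans ?_
      gcongr
      · simp only [γ] at a1 a2
        linarith
      · linarith

theorem Setup.ineq {R : ℝ} {M : ℂ × ℂ × ℂ → ℂ × ℂ} (h : Setup R M) {z u t p : ℂ} {g : ℂ × ℂ}
    {η : ℝ} (ht : ‖t‖ = 1) (hz : ‖z‖ < R) (hη : -1 ≤ η)
    (hQ : ∀ᶠ τ : ℝ in 𝓝 0, Qc (z + τ * t) ≤ Qc z + η * τ ^ 2) (hp : Grad z p)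
    (hu : Real.exp (2 * u.re) + 4 * Qc z < 1) (hy : -u.re ≤ R / 16) (him : |u.im| ≤ R / 4)
    (hg : Coef M z u g) :
    (t ^ 2 * ((1 - 4 * Qc z) * g.2 * exp (-u) + 2 * p * g.1)).re ≤
      2 * η + 320000 * (-u.re) / (R / 8) ^ 3 := by
  have hR := h.pos
  have hR4 := h.small
  have hQ0 := Qc_nonneg z
  have hQ1 := Qc_small (z := z) (by linarith)
  have ht0 : t ≠ 0 := by
    rintro rfl
    simp at ht
  have hu0 : u.re < 0 := by
    have : Real.exp (2 * u.re) < 1 := by linarith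
    rw [Real.exp_lt_one_iff] at this
    linarith
  set X := R / 8 with hX
  have hX0 : 0 < X := by positivity
  let q : ℝ → ℝ := fun τ => Qc z + η * τ ^ 2
  let y : ℝ → ℝ := fun τ => Real.log (1 - 4 * q τ) / 2 - u.re
  set y0 := Real.log (1 - 4 * Qc z) / 2 - u.re with hy0
  have lim : ∀ {f : ℝ → ℝ}, ContinuousAt f 0 → Tendsto f (𝓝[>] 0) (𝓝 (f 0)) := fun hf =>
    hf.tendsto.mono_left nhdsWithin_le_nhds
  have tq : Tendsto (fun τ => 1 - 4 * q τ) (𝓝[>] 0) (𝓝 (1 - 4 * Qc z)) := by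
    simpa [q] using lim (f := fun τ => 1 - 4 * q τ) (by simp only [q]; fun_prop)
  have ty : Tendsto y (𝓝[>] 0) (𝓝 y0) :=
    (((Real.continuousAt_log (by linarith)).tendsto.comp tq).div_const 2).sub_const _
  have hy01 : y0 ≤ -u.re := by
    have := Real.log_nonpos (x := 1 - 4 * Qc z) (by linarith) (by linarith)
    linarith
  have hy00 : 0 < y0 := by
    have := Real.log_lt_log (Real.exp_pos (2 * u.re))
      (show Real.exp (2 * u.re) < 1 - 4 * Qc z by linarith)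
    rw [Real.log_exp] at this
    linarith
  have t0 : Tendsto (fun τ : ℝ => τ) (𝓝[>] 0) (𝓝 0) := lim continuousAt_id
  have t2 : Tendsto (fun τ : ℝ => τ ^ 2) (𝓝[>] 0) (𝓝 0) := by simpa using t0.pow 2
  have t3 : Tendsto (fun τ : ℝ => τ ^ 3) (𝓝[>] 0) (𝓝 0) := by simpa using t0.pow 3
  let m : ℝ → ℂ × ℂ := fun τ => M (z, u, τ * t)
  let ψ : ℝ → ℂ × ℂ := fun τ => t ^ 2 • ((((τ : ℂ) * t) ^ 2)⁻¹ • (m τ - (z, exp u)))
  have tψ : Tendsto ψ (𝓝[>] 0) (𝓝 (t ^ 2 • g)) := by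
    refine Tendsto.const_smul (hg.comp (f := fun τ : ℝ => (τ : ℂ) * t) ?_) _
    refine tendsto_nhdsWithin_iff.2 ⟨by simpa [mul_comm] using tendsto_lin t, ?_⟩
    filter_upwards [self_mem_nhdsWithin] with τ hτ
    exact mul_ne_zero (ofReal_ne_zero.2 (ne_of_gt hτ)) ht0
  have hm : ∀ τ : ℝ, 0 < τ → m τ = (z + (τ ^ 2 : ℝ) • (ψ τ).1, exp u + (τ ^ 2 : ℝ) • (ψ τ).2) := by
    intro τ hτ
    have : (τ : ℂ) ≠ 0 := ofReal_ne_zero.2 hτ.ne'
    refine Prod.ext ?_ ?_ <;>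
    · simp only [ψ, Prod.smul_fst, Prod.smul_snd, Prod.fst_sub, Prod.snd_sub, smul_eq_mul, real_smul]
      push_cast
      field_simp
      ring
  have tψ1 : Tendsto (fun τ => (ψ τ).1) (𝓝[>] 0) (𝓝 (t ^ 2 * g.1)) := tψ.fst_nhds
  have tψ2 : Tendsto (fun τ => (ψ τ).2 * exp (-u)) (𝓝[>] 0) (𝓝 (t ^ 2 * g.2 * exp (-u))) :=
    tψ.snd_nhds.mul_const _
  obtain ⟨L, hL, hLp⟩ := hp
  have tL : Tendsto (fun τ : ℝ => (τ ^ 2)⁻¹ • (Qc (z + (τ ^ 2 : ℝ) • (ψ τ).1) - Qc z)) (𝓝[>] 0)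
      (𝓝 (L (t ^ 2 * g.1))) := by
    refine (hL.hasFDerivWithinAt (s := univ)).lim (by simpa using t2.smul tψ1)
      (Eventually.of_forall fun _ => mem_univ _) (tψ1.congr' ?_)
    filter_upwards [self_mem_nhdsWithin] with τ hτ
    rw [inv_smul_smul₀ (pow_ne_zero 2 (ne_of_gt hτ))]
  let e : ℝ → ℝ := fun τ => 2 * ((ψ τ).2 * exp (-u)).re + τ ^ 2 * normSq ((ψ τ).2 * exp (-u))
  have te : Tendsto e (𝓝[>] 0) (𝓝 (2 * (t ^ 2 * g.2 * exp (-u)).re)) := by
    have := (((continuous_re.tendsto _).comp tψ2).const_mul 2).add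
      (t2.mul ((continuous_normSq.tendsto _).comp tψ2))
    simpa [e] using this
  let θ : ℝ → ℝ := fun τ => 2 * τ + 160000 * y τ / X ^ 3
  have tθ : Tendsto θ (𝓝[>] 0) (𝓝 (160000 * y0 / X ^ 3)) := by
    simpa [θ] using (t0.const_mul 2).add ((ty.const_mul 160000).div_const (X ^ 3))
  have tθ2 : Tendsto (fun τ => τ ^ 2 * θ τ) (𝓝[>] 0) (𝓝 0) := by simpa using t2.mul tθ
  have hneg : Tendsto (fun s : ℝ => -s) (𝓝 0) (𝓝 0) := by simpa using continuous_neg.tendsto (0 : ℝ)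
  have key : 2 * (t ^ 2 * g.2 * exp (-u)).re * (1 - 4 * Qc z) + 4 * L (t ^ 2 * g.1) ≤
      2 * (160000 * y0 / X ^ 3) + 4 * η * (1 + 0 * (2 * (t ^ 2 * g.2 * exp (-u)).re)) := by
    refine le_of_tendsto_of_tendsto ((te.mul_const _).add (tL.const_mul 4))
      ((tθ.const_mul 2).add (((t2.mul te).const_add 1).const_mul (4 * η))) ?_
    filter_upwards [self_mem_nhdsWithin, t0.eventually_le_const (show (0 : ℝ) < 1 / 32 by norm_num),
      t0.eventually_lt_const hR, tq.eventually_const_le (show 1 / 2 < 1 - 4 * Qc z by linarith),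
      hQ.filter_mono nhdsWithin_le_nhds, (hneg.eventually hQ).filter_mono nhdsWithin_le_nhds,
      t3.eventually_le_const (half_pos hy00), ty.eventually_const_le (half_lt_self hy00),
      ty.eventually_le_const (show y0 < X by linarith), tθ2.eventually_le_const zero_lt_one]
      with τ c0 c1 c2 c3 c4 c5 c6 c7 c8 c9
    have c0' : 0 < τ := c0
    have hl : ‖(τ : ℂ) * t‖ = τ := by rw [norm_mul, ht, mul_one, norm_real, Real.norm_of_nonneg c0'.le]
    have he : Real.exp (2 * (u.re + y τ)) = 1 - 4 * q τ := by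
      rw [← Real.exp_log (show 0 < 1 - 4 * q τ by linarith)]
      congr 1
      simp only [y]
      ring
    have c5' : Qc (z - τ * t) ≤ q τ := by
      simpa [q, sub_eq_add_neg] using c5
    have k := h.ineq_tau (u := u) (q := q τ) hz hl c0' c1 c2
      (by simp only [q]; nlinarith [sq_nonneg τ]) c3 c4 c5' he (by linarith) c8 hu0.le hy him
    have e1 : 2 * τ ^ 3 + 8 * (20000 * τ ^ 2) * y τ / (R / 8) ^ 3 = τ ^ 2 * θ τ := by
      simp only [θ, hX]
      ring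
    have e2 : normSq (m τ).2 * Real.exp (2 * y τ) = (1 + τ ^ 2 * e τ) * (1 - 4 * q τ) := by
      have a1 : (m τ).2 = (1 + (τ ^ 2 : ℝ) * ((ψ τ).2 * exp (-u))) * exp u := by
        rw [hm τ c0', add_mul, mul_assoc, mul_assoc, ← exp_add]
        simp
      rw [a1, map_mul, normSq_eq_norm_sq (exp u), norm_exp, ← Real.exp_nat_mul, mul_assoc,
        ← Real.exp_add, ← he, normSq_add, map_mul, normSq_ofReal]
      congr 1
      · simp only [e, map_one, one_mul, map_mul, conj_ofReal, re_ofReal_mul]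
        rw [← map_mul (starRingEnd ℂ), conj_re]
        ring
      · congr 1
        push_cast
        ring
    have hθ0 : 0 ≤ τ ^ 2 * θ τ := by
      have : 0 ≤ y τ := by linarith
      simp only [θ]
      positivity
    have hN0 : 0 ≤ 1 - 4 * Qc (m τ).1 := by
      have := mul_nonneg (normSq_nonneg (m τ).2) (Real.exp_pos (2 * y τ)).le
      exact nonneg_of_mul_nonneg_left (this.trans k) (Real.exp_pos _)
    have hN1 := Qc_nonneg (m τ).1
    have hexp : Real.exp (τ ^ 2 * θ τ) ≤ 1 + 2 * (τ ^ 2 * θ τ) := by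
      have := (abs_le.1 (Real.abs_exp_sub_one_le (x := τ ^ 2 * θ τ)
        (by rwa [abs_of_nonneg hθ0]))).2
      rw [abs_of_nonneg hθ0] at this
      linarith
    rw [e1] at k
    replace k := e2.symm.trans_le k
    have e3 : (m τ).1 = z + (τ ^ 2 : ℝ) • (ψ τ).1 := by rw [hm τ c0']
    rw [← e3, smul_eq_mul]
    have hτ2 : 0 < τ ^ 2 := by positivity
    refine le_of_mul_le_mul_left ?_ hτ2
    have e4 : τ ^ 2 * (e τ * (1 - 4 * Qc z) + 4 * ((τ ^ 2)⁻¹ * (Qc (m τ).1 - Qc z))) =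
        τ ^ 2 * e τ * (1 - 4 * Qc z) + 4 * (Qc (m τ).1 - Qc z) := by field_simp
    rw [e4]
    have k2 : (1 - 4 * Qc (m τ).1) * Real.exp (τ ^ 2 * θ τ) ≤
        (1 - 4 * Qc (m τ).1) + 2 * (τ ^ 2 * θ τ) := by
      linear_combination mul_le_mul_of_nonneg_left hexp hN0 + 8 * mul_nonneg hN1 hθ0
    have k3 := k.trans k2
    simp only [q] at k3
    linear_combination k3
  rw [hLp] at key
  have e5 : (t ^ 2 * ((1 - 4 * Qc z) * g.2 * exp (-u) + 2 * p * g.1)).re =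
      (t ^ 2 * g.2 * exp (-u)).re * (1 - 4 * Qc z) + 2 * (p * (t ^ 2 * g.1)).re := by
    have : t ^ 2 * ((1 - 4 * Qc z) * g.2 * exp (-u) + 2 * p * g.1) =
        t ^ 2 * g.2 * exp (-u) * ((1 - 4 * Qc z : ℝ) : ℂ) + ((2 : ℝ) : ℂ) * (p * (t ^ 2 * g.1)) := by
      push_cast
      ring
    rw [this, add_re, re_mul_ofReal, re_ofReal_mul]
  have e6 : 160000 * y0 / X ^ 3 ≤ 320000 * (-u.re) / X ^ 3 := by
    gcongr ?_ / _
    linarith
  rw [e5]
  linarith

end Pool.Agent.Lib.MP_08f711_an.CM
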