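import Pool.Agent.Lib.MP_08f711_an.CM.Dom
import Pool.Agent.Lib.MP_08f711_an.CM.Core

/-!
The domain is not locally convexifiable at the origin.
-/

open Complex Filter Topology Set Metric Asymptotics

namespace Pool.Agent.Lib.MP_08f711_an.CM

theorem not_convex_image_rc {U : Set (ℂ × ℂ)} (hU : IsOpen U) (h0 : (0 : ℂ × ℂ) ∈ U)
    {Φ : ℂ × ℂ → ℂ × ℂ} (hΦ : DifferentiableOn ℂ Φ (U ∩ {x | rc x < 0}))
    (hinj : InjOn Φ (U ∩ {x | rc x < 0})) : ¬ Convex ℝ (Φ '' (U ∩ {x | rc x < 0})) := by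
  intro hconv
  set G := U ∩ {x | rc x < 0} with hG
  have hGo : IsOpen G := hU.inter (isOpen_lt continuous_rc continuous_const)
  obtain ⟨R0, hR0, hball⟩ := Metric.isOpen_iff.mp hU 0 h0
  set R := min (R0 / 2) (1 / 4) with hR
  have hR1 : R ≤ R0 / 2 := min_le_left _ _
  have hR2 : R ≤ 1 / 4 := min_le_right _ _
  have hrc : ∀ z w : ℂ, normSq (1 + 2 * w) + 4 * Qc z = 1 + 4 * rc (z, w) := fun z w => by
    simp only [rc, normSq_apply, add_re, add_im, mul_re, mul_im, one_re, one_im, re_ofNat, im_ofNat]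
    ring
  have hmem : ∀ z u : ℂ, ‖z‖ < 2 * R → ‖u‖ < R → Real.exp (2 * u.re) + 4 * Qc z < 1 →
      (z, (exp u - 1) / 2) ∈ G := by
    intro z u h1 h2 h3
    refine ⟨hball ?_, ?_⟩
    · have := norm_exp_sub_one_le (x := u) (by linarith)
      rw [mem_ball_zero_iff, Prod.norm_def, max_lt_iff, norm_div, Complex.norm_ofNat]
      constructor <;> linarith [norm_nonneg u]
    · have := hrc z ((exp u - 1) / 2)
      rw [show 1 + 2 * ((exp u - 1) / 2) = exp u by ring, normSq_eq_norm_sq, norm_exp,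
        ← Real.exp_nat_mul] at this
      simp only [Nat.cast_ofNat] at this
      simp only [mem_ofPred_eq]
      linarith
  let a : ℂ × ℂ × ℂ → ℂ × ℂ := fun x => (x.1 + x.2.2, (exp x.2.1 - 1) / 2)
  let b : ℂ × ℂ × ℂ → ℂ × ℂ := fun x => (x.1 - x.2.2, (exp x.2.1 - 1) / 2)
  have hab : ∀ x ∈ Vset R, a x ∈ G ∧ b x ∈ G := by
    intro x hx
    have n1 := (norm_fst_le x).trans_lt hx.1
    have n2 := ((norm_fst_le x.2).trans (norm_snd_le x)).trans_lt hx.1
    have n3 := ((norm_snd_le x.2).trans (norm_snd_le x)).trans_lt hx.1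
    exact ⟨hmem _ _ ((norm_add_le _ _).trans_lt (by linarith)) n2 hx.2.1,
      hmem _ _ ((norm_sub_le _ _).trans_lt (by linarith)) n2 hx.2.2⟩
  let A : ℂ × ℂ × ℂ → ℂ × ℂ := fun x => (1 / 2 : ℂ) • (Φ (a x) + Φ (b x))
  have hA : ∀ x ∈ Vset R, A x ∈ Φ '' G := by
    intro x hx
    have n1 := hconv (mem_image_of_mem _ (hab x hx).1) (mem_image_of_mem _ (hab x hx).2)
      (a := 1 / 2) (b := 1 / 2) (by norm_num) (by norm_num) (by norm_num)
    convert n1 using 1
    simp only [A]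
    ext <;> simp
  have hAd : ∀ x ∈ Vset R, DifferentiableAt ℂ A x := by
    intro x hx
    have d1 : DifferentiableAt ℂ (fun x => Φ (a x)) x :=
      (hΦ.differentiableAt (hGo.mem_nhds (hab x hx).1)).comp x (by simp only [a]; fun_prop)
    have d2 : DifferentiableAt ℂ (fun x => Φ (b x)) x :=
      (hΦ.differentiableAt (hGo.mem_nhds (hab x hx).2)).comp x (by simp only [b]; fun_prop)
    exact (d1.add d2).const_smul (1 / 2 : ℂ)
  refine Setup.false (R := R) (M := fun x =>
    ((Function.invFunOn Φ G (A x)).1, 1 + 2 * (Function.invFunOn Φ G (A x)).2))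
    ⟨by positivity, hR2, fun x hx => ?_, fun x hx => ?_, fun ζ u l => ?_, fun ζ u hx => ?_⟩
  · have := (differentiableAt_invFunOn hGo hΦ hinj (hA x hx)).comp x (hAd x hx)
    exact (this.fst.prodMk ((this.snd.const_mul 2).const_add 1)).differentiableWithinAt
  · obtain ⟨y, hy, hy2⟩ := hA x hx
    have : rc _ < 0 := (Function.invFunOn_mem ⟨y, hy, hy2⟩).2
    rw [hrc]
    linarith
  · have : A (ζ, u, -l) = A (ζ, u, l) := by
      simp only [A, a, b, sub_neg_eq_add, ← sub_eq_add_neg]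
      rw [add_comm]
    rw [this]
  · have : A (ζ, u, 0) = Φ (a (ζ, u, 0)) := by
      simp only [A, a, b, add_zero, sub_zero]
      ext <;> simp <;> ring
    rw [this, hinj.leftInvOn_invFunOn (hab _ hx).1]
    simp only [a, add_zero]
    congr 1
    ring

end Pool.Agent.Lib.MP_08f711_an.CM
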