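import Mathlib
import Pool.Agent.Lib.MP_08f711_an.MaxPrinciple

/-!
The polynomial `Qc` and its elementary properties.
-/

open Complex Filter Topology Set Metric Asymptotics
open scoped ContDiff

namespace Pool.Agent.Lib.MP_08f711_an.CM

/-- The part of the defining function that depends on the first variable. -/
noncomputable def Qc (z : ℂ) : ℝ :=
  26 * normSq z ^ 5 + 10 * normSq z ^ 2 * (z ^ 6).re + 4 * normSq z * (z ^ 3).re ^ 3 + normSq z ^ 6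

/-- The real differential of `Qc` at `z` is `ξ ↦ Re (p ξ)`. -/
def Grad (z p : ℂ) : Prop :=
  ∃ L : ℂ →L[ℝ] ℝ, HasFDerivAt Qc L z ∧ ∀ ξ, L ξ = (p * ξ).re

theorem Qc_zero : Qc 0 = 0 := by simp [Qc]

theorem re_sq_QDef (a : ℂ) : (a ^ 2).re = 2 * a.re ^ 2 - normSq a := by
  rw [sq, mul_re, normSq_apply]; ring

theorem re_cube_QDef (a : ℂ) : (a ^ 3).re = 4 * a.re ^ 3 - 3 * a.re * normSq a := by
  simp only [pow_succ, pow_zero, one_mul, mul_re, mul_im, normSq_apply]; ring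

theorem abs_re_pow_QDef (z : ℂ) (k : ℕ) : |(z ^ k).re| ≤ ‖z‖ ^ k :=
  (abs_re_le_norm _).trans_eq (norm_pow z k)

theorem Qc_alt (z : ℂ) : Qc z = 16 * normSq z ^ 5 + 20 * normSq z ^ 2 * (z ^ 3).re ^ 2 +
    4 * normSq z * (z ^ 3).re ^ 3 + normSq z ^ 6 := by
  have h : (z ^ 6).re = 2 * (z ^ 3).re ^ 2 - normSq z ^ 3 := by
    rw [show z ^ 6 = (z ^ 3) ^ 2 by ring, re_sq_QDef, map_pow]
  unfold Qc
  rw [h]
  ring

theorem Qc_eq (z : ℂ) : Qc z = 26 * normSq (z ^ 5) +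
    10 * (z ^ 8 * (starRingEnd ℂ) (z ^ 2)).re + 3 * (z ^ 7 * (starRingEnd ℂ) (z ^ 4)).re +
    (z ^ 10 * (starRingEnd ℂ) z).re + normSq (z ^ 6) := by
  have e1 : z ^ 8 * (starRingEnd ℂ) (z ^ 2) = ((normSq z ^ 2 : ℝ) : ℂ) * z ^ 6 := by
    push_cast; rw [← mul_conj, map_pow]; ring
  have e2 : z ^ 7 * (starRingEnd ℂ) (z ^ 4) = ((normSq z ^ 4 : ℝ) : ℂ) * z ^ 3 := by
    push_cast; rw [← mul_conj, map_pow]; ring
  have e3 : z ^ 10 * (starRingEnd ℂ) z = (normSq z : ℂ) * (z ^ 3) ^ 3 := by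
    rw [← mul_conj]; ring
  rw [e1, e2, e3, re_ofReal_mul, re_ofReal_mul, re_ofReal_mul, re_cube_QDef (z ^ 3), map_pow,
    map_pow, map_pow]
  unfold Qc
  ring

theorem Qc_lower (z : ℂ) : 12 * ‖z‖ ^ 10 ≤ Qc z := by
  have h := (abs_le.mp (abs_re_pow_QDef z 3)).1
  have h0 := norm_nonneg z
  rw [Qc_alt, normSq_eq_norm_sq]
  generalize (z ^ 3).re = u at h ⊢
  generalize ‖z‖ = r at h h0 ⊢
  have h1 : -(r ^ 3) ^ 3 ≤ u ^ 3 := by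
    rw [← Odd.neg_pow (by decide)]
    exact (Odd.strictMono_pow (by decide)).monotone h
  have h2 := mul_le_mul_of_nonneg_left h1 (sq_nonneg r)
  have h3 : 0 ≤ (r ^ 2) ^ 2 * u ^ 2 := by positivity
  have h4 : 0 ≤ r ^ 10 * (r - 2) ^ 2 := by positivity
  nlinarith

theorem Qc_nonneg (z : ℂ) : 0 ≤ Qc z := le_trans (by positivity) (Qc_lower z)

theorem Qc_upper {z : ℂ} (hz : ‖z‖ ≤ 1) : Qc z ≤ 41 * ‖z‖ ^ 10 := by
  have h := abs_re_pow_QDef z 3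
  have h0 := norm_nonneg z
  rw [Qc_alt, normSq_eq_norm_sq]
  generalize (z ^ 3).re = u at h ⊢
  generalize ‖z‖ = r at h h0 hz ⊢
  have h1 : u ^ 3 ≤ (r ^ 3) ^ 3 := (Odd.strictMono_pow (by decide)).monotone (abs_le.mp h).2
  have h2 : u ^ 2 ≤ (r ^ 3) ^ 2 := sq_le_sq' (abs_le.mp h).1 (abs_le.mp h).2
  have h3 := mul_le_mul_of_nonneg_left h1 (sq_nonneg r)
  have h4 := mul_le_mul_of_nonneg_left h2 (sq_nonneg (r ^ 2))
  have h5 : r ^ 11 ≤ r ^ 10 := pow_le_pow_of_le_one h0 hz (by norm_num)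
  have h6 : r ^ 12 ≤ r ^ 10 := pow_le_pow_of_le_one h0 hz (by norm_num)
  nlinarith

theorem Qc_rot {c : ℂ} (hc : c ^ 3 = 1) (z : ℂ) : Qc (c * z) = Qc z := by
  have h1 : ‖c‖ ^ 3 = 1 := by rw [← norm_pow, hc, norm_one]
  have h2 : ‖c‖ = 1 := (pow_eq_one_iff_of_nonneg (norm_nonneg c) (by norm_num)).1 h1
  rw [Qc_alt, Qc_alt, mul_pow, hc, one_mul, map_mul, normSq_eq_norm_sq c, h2, one_pow, one_mul]

theorem contDiff_Qc : ContDiff ℝ ∞ Qc := by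
  have h1 : ContDiff ℝ ∞ fun z : ℂ => normSq z := by
    have : (fun z : ℂ => normSq z) = fun z => reCLM z * reCLM z + imCLM z * imCLM z :=
      funext fun z => normSq_apply z
    rw [this]
    exact (reCLM.contDiff.mul reCLM.contDiff).add (imCLM.contDiff.mul imCLM.contDiff)
  have h2 : ∀ k : ℕ, ContDiff ℝ ∞ fun z : ℂ => (z ^ k).re := fun k =>
    reCLM.contDiff.comp (contDiff_id.pow k)
  exact (((contDiff_const.mul (h1.pow 5)).add ((contDiff_const.mul (h1.pow 2)).mul (h2 6))).add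
    ((contDiff_const.mul h1).mul ((h2 3).pow 3))).add (h1.pow 6)

theorem continuous_Qc : Continuous Qc := contDiff_Qc.continuous

theorem lap_Qc {Z : ℂ → ℂ} {t : ℂ} (hZ : AnalyticAt ℂ Z t) :
    ∃ l, 400 * normSq (Z t) ^ 4 * normSq (deriv Z t) ≤ l ∧ Lap (fun s => Qc (Z s)) t l := by
  have h1 := (lap_normSq (hZ.fun_pow 5)).const_mul 26
  have h2 := (lap_re_mul_conj (hZ.fun_pow 8) (hZ.fun_pow 2)).const_mul 10
  have h3 := (lap_re_mul_conj (hZ.fun_pow 7) (hZ.fun_pow 4)).const_mul 3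
  have h4 := lap_re_mul_conj (hZ.fun_pow 10) hZ
  have h5 := lap_normSq (hZ.fun_pow 6)
  refine ⟨_, ?_, ((((h1.add h2).add h3).add h4).add h5).congr (fun s => (Qc_eq _).symm) rfl⟩
  have hd := hZ.differentiableAt
  rw [deriv_fun_pow hd, deriv_fun_pow hd, deriv_fun_pow hd, deriv_fun_pow hd, deriv_fun_pow hd,
    deriv_fun_pow hd, deriv_fun_pow hd]
  generalize Z t = z
  generalize deriv Z t = d
  have e1 : ((8 : ℕ) : ℂ) * z ^ (8 - 1) * d * (starRingEnd ℂ) (((2 : ℕ) : ℂ) * z ^ (2 - 1) * d) =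
      ((16 * normSq z * normSq d : ℝ) : ℂ) * z ^ 6 := by
    push_cast
    rw [← mul_conj, ← mul_conj, map_mul, map_mul, map_pow, map_ofNat]; ring
  have e2 : ((7 : ℕ) : ℂ) * z ^ (7 - 1) * d * (starRingEnd ℂ) (((4 : ℕ) : ℂ) * z ^ (4 - 1) * d) =
      ((28 * normSq z ^ 3 * normSq d : ℝ) : ℂ) * z ^ 3 := by
    push_cast
    rw [← mul_conj, ← mul_conj, map_mul, map_mul, map_pow, map_ofNat]; ring
  have e3 : ((10 : ℕ) : ℂ) * z ^ (10 - 1) * d * (starRingEnd ℂ) d =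
      ((10 * normSq d : ℝ) : ℂ) * z ^ 9 := by
    push_cast
    rw [← mul_conj]; ring
  rw [e1, e2, e3, re_ofReal_mul, re_ofReal_mul, re_ofReal_mul]
  simp only [map_mul, map_pow, normSq_natCast]
  have a1 := (abs_le.mp (abs_re_pow_QDef z 6)).1
  have a2 := (abs_le.mp (abs_re_pow_QDef z 3)).1
  have a3 := (abs_le.mp (abs_re_pow_QDef z 9)).1
  have h0 := norm_nonneg z
  have h0' := normSq_nonneg d
  rw [normSq_eq_norm_sq z]
  generalize ‖z‖ = r at a1 a2 a3 h0 ⊢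
  generalize normSq d = D at h0' ⊢
  have b1 := mul_le_mul_of_nonneg_left a1 (show 0 ≤ r ^ 2 * D by positivity)
  have b2 := mul_le_mul_of_nonneg_left a2 (show 0 ≤ r ^ 6 * D by positivity)
  have b3 := mul_le_mul_of_nonneg_left a3 h0'
  have b4 : 0 ≤ r ^ 8 * D * (6 * r - 8) ^ 2 := by positivity
  have b5 : 0 ≤ r ^ 8 * D := by positivity
  have b6 : 0 ≤ r ^ 9 * D := by positivity
  push_cast
  nlinarith

theorem mono_QDef (a b : ℕ) (z : ℂ) : ∃ (p : ℂ) (L : ℂ →L[ℝ] ℝ),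
    ‖p‖ ≤ (a + b + 2 : ℝ) * ‖z‖ ^ (a + b + 1) ∧
    HasFDerivAt (fun w : ℂ => (w ^ (a + 1) * (starRingEnd ℂ) (w ^ (b + 1))).re) L z ∧
    ∀ ξ, L ξ = (p * ξ).re := by
  have h1 := (hasDerivAt_pow (a + 1) z).complexToReal_fderiv
  have h2 := conjCLE.hasFDerivAt.comp z (hasDerivAt_pow (b + 1) z).complexToReal_fderiv
  have h3 := reCLM.hasFDerivAt.comp z (h1.mul h2)
  refine ⟨(a + 1 : ℕ) * z ^ a * (starRingEnd ℂ) (z ^ (b + 1)) +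
    (b + 1 : ℕ) * z ^ b * (starRingEnd ℂ) (z ^ (a + 1)), _, ?_, h3, fun ξ => ?_⟩
  · refine (norm_add_le _ _).trans_eq ?_
    simp only [norm_mul, norm_pow, RCLike.norm_conj, Complex.norm_natCast]
    push_cast
    ring
  · have e : (z ^ (a + 1) * (starRingEnd ℂ) ((b + 1 : ℕ) * z ^ b * ξ)).re =
        ((b + 1 : ℕ) * z ^ b * (starRingEnd ℂ) (z ^ (a + 1)) * ξ).re := by
      rw [← conj_re, map_mul, conj_conj]
      congr 1
      ring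
    rw [add_mul, add_re, ← e, ← add_re]
    change (z ^ (a + 1) * (starRingEnd ℂ) ((b + 1 : ℕ) * z ^ b * ξ) +
      (starRingEnd ℂ) (z ^ (b + 1)) * ((a + 1 : ℕ) * z ^ a * ξ)).re = _
    congr 1
    ring

theorem exists_grad {z : ℂ} (hz : ‖z‖ ≤ 1) : ∃ p : ℂ, ‖p‖ ≤ 416 * ‖z‖ ^ 9 ∧ Grad z p := by
  obtain ⟨p1, L1, n1, d1, e1⟩ := mono_QDef 4 4 z
  obtain ⟨p2, L2, n2, d2, e2⟩ := mono_QDef 7 1 z
  obtain ⟨p3, L3, n3, d3, e3⟩ := mono_QDef 6 3 z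
  obtain ⟨p4, L4, n4, d4, e4⟩ := mono_QDef 9 0 z
  obtain ⟨p5, L5, n5, d5, e5⟩ := mono_QDef 5 5 z
  have hd := ((((d1.const_mul 26).add (d2.const_mul 10)).add (d3.const_mul 3)).add d4).add d5
  refine ⟨26 * p1 + 10 * p2 + 3 * p3 + p4 + p5, ?_, _, hd.congr_of_eventuallyEq
    (.of_forall fun w => ?_), fun ξ => ?_⟩
  · have h0 := norm_nonneg z
    have h5 : ‖z‖ ^ 10 ≤ ‖z‖ ^ 9 := pow_le_pow_of_le_one h0 hz (by norm_num)
    have h6 : ‖z‖ ^ 11 ≤ ‖z‖ ^ 9 := pow_le_pow_of_le_one h0 hz (by norm_num)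
    have t1 := norm_add_le (26 * p1 + 10 * p2 + 3 * p3 + p4) p5
    have t2 := norm_add_le (26 * p1 + 10 * p2 + 3 * p3) p4
    have t3 := norm_add_le (26 * p1 + 10 * p2) (3 * p3)
    have t4 := norm_add_le (26 * p1) (10 * p2)
    rw [norm_mul, norm_mul, Complex.norm_ofNat, Complex.norm_ofNat] at t4
    rw [norm_mul, Complex.norm_ofNat] at t3
    norm_num at n1 n2 n3 n4 n5
    linarith
  · rw [Qc_eq]
    simp only [Pi.add_apply, mul_conj, ofReal_re, zero_add, pow_one]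
  · simp only [_root_.add_apply, _root_.smul_apply, smul_eq_mul, e1, e2,
      e3, e4, e5, add_mul, add_re, mul_assoc, mul_re, re_ofNat, im_ofNat]
    ring

theorem Grad.rot {z p c : ℂ} (h : Grad z p) (hc : c ^ 3 = 1) : Grad (c * z) (p * c ^ 2) := by
  obtain ⟨L, hL, e⟩ := h
  have h6 : (c ^ 2) ^ 3 = 1 := by rw [← pow_mul, mul_comm, pow_mul, hc, one_pow]
  have h1 : c ^ 2 * (c * z) = z := by rw [← mul_assoc, ← pow_succ, hc, one_mul]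
  have h2 : HasFDerivAt (fun w : ℂ => c ^ 2 * w) (c ^ 2 • (1 : ℂ →L[ℝ] ℂ)) (c * z) := by
    simpa using ((hasDerivAt_id (c * z)).const_mul (c ^ 2)).complexToReal_fderiv
  rw [← h1] at hL
  refine ⟨_, (hL.comp (c * z) h2).congr_of_eventuallyEq
    (.of_forall fun w => (Qc_rot h6 w).symm), fun ξ => ?_⟩
  rw [ContinuousLinearMap.comp_apply, e, mul_assoc]
  rfl

theorem Qc_lip {z z' : ℂ} (hz : ‖z‖ ≤ 1 / 2) (hz' : ‖z'‖ ≤ 1 / 2) :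
    |Qc z' - Qc z| ≤ ‖z' - z‖ := by
  have h : ∀ w : ℂ, ∃ L : ℂ →L[ℝ] ℝ, w ∈ closedBall (0 : ℂ) (1 / 2) →
      HasFDerivAt Qc L w ∧ ‖L‖ ≤ 1 := by
    intro w
    by_cases hw : w ∈ closedBall (0 : ℂ) (1 / 2)
    swap
    · exact ⟨0, fun h => absurd h hw⟩
    rw [mem_closedBall_zero_iff] at hw
    obtain ⟨p, hp, L, hL, e⟩ := exists_grad (hw.trans (by norm_num))
    refine ⟨L, fun _ => ⟨hL, L.opNorm_le_bound zero_le_one fun ξ => ?_⟩⟩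
    have h1 : ‖w‖ ^ 9 ≤ (1 / 2) ^ 9 := pow_le_pow_left₀ (norm_nonneg w) hw 9
    rw [e, Real.norm_eq_abs]
    refine (abs_re_le_norm _).trans ?_
    rw [norm_mul]
    exact mul_le_mul_of_nonneg_right (by norm_num at h1; linarith) (norm_nonneg ξ)
  choose L hL using h
  have := Convex.norm_image_sub_le_of_norm_hasFDerivWithin_le (f := Qc) (f' := L) (C := 1)
    (fun w hw => (hL w hw).1.hasFDerivWithinAt) (fun w hw => (hL w hw).2)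
    (convex_closedBall (0 : ℂ) (1 / 2)) (mem_closedBall_zero_iff.2 hz)
    (mem_closedBall_zero_iff.2 hz')
  rwa [one_mul, Real.norm_eq_abs] at this

theorem Qc_xy_QDef (x y : ℝ) : Qc ((x : ℂ) + y * I) = 16 * (x ^ 2 + y ^ 2) ^ 5 +
    20 * (x ^ 2 + y ^ 2) ^ 2 * (x ^ 3 - 3 * x * y ^ 2) ^ 2 +
    4 * (x ^ 2 + y ^ 2) * (x ^ 3 - 3 * x * y ^ 2) ^ 3 + (x ^ 2 + y ^ 2) ^ 6 := by
  have e : (((x : ℂ) + y * I) ^ 3).re = x ^ 3 - 3 * x * y ^ 2 := by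
    rw [re_cube_QDef, normSq_add_mul_I]
    simp only [add_re, ofReal_re, mul_re, I_re, ofReal_im, I_im]
    ring
  rw [Qc_alt, e, normSq_add_mul_I]

theorem Qc_real {x : ℝ} (hx : x ≠ 0) : ∀ᶠ τ : ℝ in 𝓝 0,
    Qc ((x : ℂ) + τ * I) ≤ Qc x + (-32 * x ^ 9 + 7 * x ^ 10) * τ ^ 2 := by
  let g : ℝ → ℝ := fun τ =>
    16 * ((x ^ 2 + τ ^ 2) ^ 4 + (x ^ 2 + τ ^ 2) ^ 3 * x ^ 2 + (x ^ 2 + τ ^ 2) ^ 2 * x ^ 4 +
      (x ^ 2 + τ ^ 2) * x ^ 6 + x ^ 8) +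
    20 * (x ^ 2 * (-2 * x ^ 2 - 3 * τ ^ 2) * ((x ^ 2 + τ ^ 2) * (x ^ 2 - 3 * τ ^ 2) + x ^ 4)) +
    4 * (x ^ 3 * (-8 * x ^ 6 + 18 * x ^ 4 * τ ^ 2 - 27 * τ ^ 6)) +
    ((x ^ 2 + τ ^ 2) ^ 5 + (x ^ 2 + τ ^ 2) ^ 4 * x ^ 2 + (x ^ 2 + τ ^ 2) ^ 3 * x ^ 4 +
      (x ^ 2 + τ ^ 2) ^ 2 * x ^ 6 + (x ^ 2 + τ ^ 2) * x ^ 8 + x ^ 10)
  have hg : Continuous g := by fun_prop
  have h0 : g 0 < -32 * x ^ 9 + 7 * x ^ 10 := by
    have : 0 < x ^ 10 := by positivity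
    have e : g 0 = -32 * x ^ 9 + 6 * x ^ 10 := by simp only [g]; ring
    linarith
  filter_upwards [hg.continuousAt.eventually_lt_const h0] with τ hτ
  have e : Qc ((x : ℂ) + τ * I) = Qc x + g τ * τ ^ 2 := by
    have e0 := Qc_xy_QDef x 0
    rw [ofReal_zero, zero_mul, add_zero] at e0
    rw [Qc_xy_QDef, e0]
    simp only [g]
    ring
  rw [e]
  exact add_le_add le_rfl (mul_le_mul_of_nonneg_right hτ.le (sq_nonneg τ))

theorem Qc_imag {x : ℝ} (hx : x ≠ 0) (hx1 : |x| ≤ 1) : ∀ᶠ τ : ℝ in 𝓝 0,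
    Qc ((x : ℂ) * I + τ * 1) ≤ Qc (x * I) + 267 * x ^ 8 * τ ^ 2 := by
  let g : ℝ → ℝ := fun τ =>
    16 * ((x ^ 2 + τ ^ 2) ^ 4 + (x ^ 2 + τ ^ 2) ^ 3 * x ^ 2 + (x ^ 2 + τ ^ 2) ^ 2 * x ^ 4 +
      (x ^ 2 + τ ^ 2) * x ^ 6 + x ^ 8) +
    20 * (x ^ 2 + τ ^ 2) ^ 2 * (τ ^ 2 - 3 * x ^ 2) ^ 2 +
    4 * (x ^ 2 + τ ^ 2) * τ * (τ ^ 2 - 3 * x ^ 2) ^ 3 +
    ((x ^ 2 + τ ^ 2) ^ 5 + (x ^ 2 + τ ^ 2) ^ 4 * x ^ 2 + (x ^ 2 + τ ^ 2) ^ 3 * x ^ 4 +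
      (x ^ 2 + τ ^ 2) ^ 2 * x ^ 6 + (x ^ 2 + τ ^ 2) * x ^ 8 + x ^ 10)
  have hg : Continuous g := by fun_prop
  have h0 : g 0 < 267 * x ^ 8 := by
    have h1 : 0 < x ^ 8 := by positivity
    have h2 : x ^ 2 ≤ 1 := (sq_le_one_iff_abs_le_one x).2 hx1
    have h3 := mul_le_mul_of_nonneg_left h2 h1.le
    have e : g 0 = 260 * x ^ 8 + 6 * (x ^ 8 * x ^ 2) := by simp only [g]; ring
    linarith
  filter_upwards [hg.continuousAt.eventually_lt_const h0] with τ hτ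
  have e : Qc ((x : ℂ) * I + τ * 1) = Qc (x * I) + g τ * τ ^ 2 := by
    have e0 := Qc_xy_QDef 0 x
    rw [ofReal_zero, zero_add] at e0
    rw [mul_one, add_comm, Qc_xy_QDef, e0]
    simp only [g]
    ring
  rw [e]
  exact add_le_add le_rfl (mul_le_mul_of_nonneg_right hτ.le (sq_nonneg τ))

end Pool.Agent.Lib.MP_08f711_an.CM
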